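import Pool.Agent.Work.MP_2738db_nt_A.Interface

/-!
VAL: valuation of interpolation determinants over a commutative ring.
-/

set_option autoImplicit false

namespace Pool.Agent.Work.MP_2738db_nt_A.helper43

open Finset BigOperators
open Pool.Agent.Work.MP_2738db_nt_A (fz nc Stmt_Val)

/-- sums of distinct weights: if `W : ι → ℕ` is such that for every `t < D = card ι` at most `t+1`
indices have `W i ≤ t`, then `∑ W ≥ D(D-1)/2`. -/
lemma sum_weights_ge {ι : Type} [Fintype ι] [DecidableEq ι] (W : ι → ℕ)
    (h : ∀ t < Fintype.card ι, (univ.filter (fun i => W i ≤ t)).card ≤ t + 1) :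
    Fintype.card ι * (Fintype.card ι - 1) / 2 ≤ ∑ i, W i := by
  classical
  set D := Fintype.card ι with hD
  have h1 : ∀ i, ((range D).filter (fun t => t < W i)).card ≤ W i := by
    intro i
    calc ((range D).filter (fun t => t < W i)).card ≤ (range (W i)).card := by
          apply Finset.card_le_card
          intro t ht
          rw [mem_filter] at ht
          exact mem_range.mpr ht.2
      _ = W i := card_range _
  have h2 : ∑ i, ((range D).filter (fun t => t < W i)).card
      = ∑ t ∈ range D, (univ.filter (fun i => t < W i)).card := by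
    simp only [Finset.card_filter]
    rw [Finset.sum_comm]
  have h3 : ∀ t ∈ range D, D - 1 - t ≤ (univ.filter (fun i => t < W i)).card := by
    intro t ht
    rw [mem_range] at ht
    have h4 : (univ.filter (fun i => W i ≤ t)).card + (univ.filter (fun i => t < W i)).card = D := by
      have := Finset.card_filter_add_card_filter_not (s := (univ : Finset ι)) (fun i => W i ≤ t)
      simp only [not_le] at this
      rw [this, hD, Finset.card_univ]
    have := h t ht
    omega
  have h5 : ∑ t ∈ range D, (D - 1 - t) = D * (D - 1) / 2 := by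
    rw [Finset.sum_range_reflect (fun t => t) D, Finset.sum_range_id]
  calc D * (D - 1) / 2 = ∑ t ∈ range D, (D - 1 - t) := h5.symm
    _ ≤ ∑ t ∈ range D, (univ.filter (fun i => t < W i)).card := Finset.sum_le_sum h3
    _ = ∑ i, ((range D).filter (fun t => t < W i)).card := h2.symm
    _ ≤ ∑ i, W i := Finset.sum_le_sum fun i _ => h1 i

/-- Divisibility of a determinant `det (∑ₛ C i s • B s)` from divisibility of the coefficients. -/
lemma det_dvd {R : Type} [CommRing R] {ι σ : Type} [Fintype ι] [DecidableEq ι] [Fintype σ] [DecidableEq σ]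
    (C : ι → σ → R) (B : σ → ι → R) (q : R)
    (h : ∀ f : ι → σ, Function.Injective f → q ∣ ∏ i, C i (f i)) :
    q ∣ (Matrix.of fun i j => ∑ s, C i s * B s j).det := by
  classical
  have h1 : (Matrix.of fun i j => ∑ s, C i s * B s j).det
      = ∑ f : ι → σ, (∏ i, C i (f i)) * (Matrix.of fun i j => B (f i) j).det := by
    have h2 : (Matrix.of fun i j => ∑ s, C i s * B s j) = fun i => ∑ s, C i s • B s := by
      funext i j
      simp [Finset.sum_apply]
    have h3 := MultilinearMap.map_sum (f := (Matrix.detRowAlternating (n := ι) (R := R)).toMultilinearMap)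
      (g := fun i s => C i s • B s)
    have h0 : (Matrix.of fun i j => ∑ s, C i s * B s j).det
        = (Matrix.detRowAlternating (n := ι) (R := R)).toMultilinearMap (fun i => ∑ s, C i s • B s) := by
      rw [← h2]; rfl
    rw [h0, h3]
    apply Finset.sum_congr rfl
    intro f _
    have h4 := MultilinearMap.map_smul_univ
      (Matrix.detRowAlternating (n := ι) (R := R)).toMultilinearMap (fun i => C i (f i)) (fun i => B (f i))
    rw [h4, smul_eq_mul]
    rfl
  rw [h1]
  apply Finset.dvd_sum
  intro f _
  by_cases hf : Function.Injective f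
  · exact Dvd.dvd.mul_right (h f hf) _
  · have h5 : (Matrix.of fun i j => B (f i) j).det = 0 := by
      obtain ⟨i, j, hij, hne⟩ := Function.not_injective_iff.mp hf
      apply Matrix.det_zero_of_row_eq hne
      funext l
      simp [hij]
    rw [h5, mul_zero]
    exact dvd_zero _

/-- Main valuation lemma. -/
theorem det_val {R : Type} [CommRing R] {ι : Type} [Fintype ι] [DecidableEq ι] (p : R) (Z M V : ℕ) (k : ι → ℕ)
    (c : ι → ℕ → R) (B : ℕ → ι → R) (G : ι → ι → R)
    (hc : ∀ i m, p ^ (m - k i) ∣ c i m)
    (hM : Fintype.card ι ≤ M)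
    (hV : V + ∑ i, k i ≤ Fintype.card ι * (Fintype.card ι - 1) / 2) :
    p ^ V ∣ (Matrix.of fun i j => (∑ m ∈ range (Z + 1), c i m * B m j) + p ^ M * G i j).det := by
  classical
  let σ := Fin (Z + 1) ⊕ ι
  let C : ι → σ → R := fun i s => Sum.elim (fun m : Fin (Z + 1) => c i m) (fun j => p ^ M * G i j) s
  let B' : σ → ι → R := fun s j => Sum.elim (fun m : Fin (Z + 1) => B m j)
    (fun j' => if j' = j then 1 else 0) s
  have h1 : (Matrix.of fun i j => (∑ m ∈ range (Z + 1), c i m * B m j) + p ^ M * G i j)
      = Matrix.of fun i j => ∑ s, C i s * B' s j := by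
    funext i j
    simp only [Matrix.of_apply, C, B', σ, Fintype.sum_sum_type, Sum.elim_inl, Sum.elim_inr]
    congr 1
    · rw [Finset.sum_range]
    · simp
  rw [h1]
  apply det_dvd
  intro f hf
  -- weights
  let v : ι → ℕ := fun i => Sum.elim (fun m : Fin (Z + 1) => (m : ℕ) - k i) (fun _ => M) (f i)
  let W : ι → ℕ := fun i => Sum.elim (fun m : Fin (Z + 1) => (m : ℕ)) (fun _ => M) (f i)
  have hv : ∀ i, p ^ v i ∣ C i (f i) := by
    intro i
    simp only [v, C]
    rcases f i with m | j
    · simpa using hc i m
    · simp only [Sum.elim_inr]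
      exact Dvd.intro _ rfl
  have hprod : p ^ (∑ i, v i) ∣ ∏ i, C i (f i) := by
    rw [← Finset.prod_pow_eq_pow_sum]
    exact Finset.prod_dvd_prod_of_dvd _ _ fun i _ => hv i
  have hW : ∑ i, W i ≤ ∑ i, v i + ∑ i, k i := by
    rw [← Finset.sum_add_distrib]
    apply Finset.sum_le_sum
    intro i _
    simp only [v, W]
    rcases f i with m | j
    · simp only [Sum.elim_inl]; omega
    · simp only [Sum.elim_inr]; omega
  have hWge : Fintype.card ι * (Fintype.card ι - 1) / 2 ≤ ∑ i, W i := by
    apply sum_weights_ge
    intro t ht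
    have h6 : (univ.filter (fun i => W i ≤ t)).card ≤ (range (t + 1)).card := by
      apply Finset.card_le_card_of_injOn (fun i => W i)
      · intro i hi
        simp only [coe_filter, mem_univ, true_and, Set.mem_ofPred_eq] at hi
        simp only [coe_range, Set.mem_Iio]
        omega
      · intro i hi j hj hij
        simp only [coe_filter, mem_univ, true_and, Set.mem_ofPred_eq] at hi hj
        apply hf
        simp only [W] at hi hj hij
        rcases hfi : f i with m | j1
        · rcases hfj : f j with m' | j2
          · rw [hfi, hfj] at hij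
            simp only [Sum.elim_inl] at hij
            congr 1
            exact Fin.ext hij
          · rw [hfj] at hj
            simp only [Sum.elim_inr] at hj
            omega
        · rw [hfi] at hi
          simp only [Sum.elim_inr] at hi
          omega
    rwa [card_range] at h6
  exact (pow_dvd_pow p (by omega)).trans hprod

/-! Newton coefficients of `z ↦ choose z k * u ^ z`. -/

lemma fwd_fz_zero {R : Type} [CommRing R] (u : R) : fwdDiff 1 (fz u 0) = (u - 1) • fz u 0 := by
  funext z
  simp only [fwdDiff, fz, Pi.smul_apply, smul_eq_mul, Nat.choose_zero_right, Nat.cast_one, pow_succ]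
  ring

lemma fwd_fz_succ {R : Type} [CommRing R] (u : R) (k : ℕ) :
    fwdDiff 1 (fz u (k + 1)) = (u - 1) • fz u (k + 1) + u • fz u k := by
  funext z
  simp only [fwdDiff, fz, Pi.smul_apply, Pi.add_apply, smul_eq_mul, Nat.choose_succ_succ, Nat.cast_add,
    pow_succ]
  ring

lemma fwd_dvd {R : Type} [CommRing R] {p u : R} (hu : p ∣ u - 1) :
    ∀ (m k z : ℕ), p ^ (m - k) ∣ (fwdDiff 1)^[m] (fz u k) z := by
  intro m
  induction m with
  | zero => intro k z; simp
  | succ m ih =>
    intro k z
    rw [Function.iterate_succ_apply]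
    cases k with
    | zero =>
      rw [fwd_fz_zero, fwdDiff_iter_const_smul]
      simp only [Pi.smul_apply, smul_eq_mul, Nat.sub_zero]
      rw [pow_succ, mul_comm]
      exact mul_dvd_mul hu (by simpa using ih 0 z)
    | succ k =>
      rw [fwd_fz_succ, fwdDiff_iter_add, fwdDiff_iter_const_smul, fwdDiff_iter_const_smul]
      simp only [Pi.add_apply, Pi.smul_apply, smul_eq_mul]
      apply dvd_add
      · by_cases hmk : m < k + 1
        · have : m + 1 - (k + 1) = 0 := by omega
          rw [this, pow_zero]; exact one_dvd _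
        · have : m + 1 - (k + 1) = (m - (k + 1)) + 1 := by omega
          rw [this, pow_succ, mul_comm]
          exact mul_dvd_mul hu (ih (k + 1) z)
      · have : m + 1 - (k + 1) = m - k := by omega
        rw [this]
        exact Dvd.dvd.mul_left (ih k z) _

lemma nc_dvd {R : Type} [CommRing R] {p u : R} (hu : p ∣ u - 1) (k m : ℕ) : p ^ (m - k) ∣ nc u k m := fwd_dvd hu m k 0

lemma nc_sum {R : Type} [CommRing R] (u : R) (k z Z : ℕ) (hz : z ≤ Z) :
    (Nat.choose z k : R) * u ^ z = ∑ m ∈ range (Z + 1), nc u k m * (Nat.choose z m : R) := by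
  have h1 := shift_eq_sum_fwdDiff_iter (1 : ℕ) (fz u k) z 0
  simp only [smul_eq_mul, mul_one, zero_add, nsmul_eq_mul] at h1
  have h2 : (Nat.choose z k : R) * u ^ z = ∑ m ∈ range (z + 1), nc u k m * (Nat.choose z m : R) := by
    rw [show (Nat.choose z k : R) * u ^ z = fz u k z from rfl, h1]
    apply Finset.sum_congr rfl
    intro m _
    rw [nc, mul_comm]
  rw [h2]
  apply Finset.sum_subset
  · intro m hm
    rw [mem_range] at hm ⊢
    omega
  · intro m _ hm
    rw [mem_range, not_lt] at hm
    rw [Nat.choose_eq_zero_of_lt (by omega)]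
    simp

theorem stmt_Val : Stmt_Val :=
  ⟨fun _ _ _ _ _ p Z M V k c B G hc hM hV => det_val p Z M V k c B G hc hM hV,
    fun _ _ _ _ hu k m => nc_dvd hu k m, fun _ _ u k z Z hz => nc_sum u k z Z hz⟩

end Pool.Agent.Work.MP_2738db_nt_A.helper43
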