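import Pool.Agent.Work.MP_2738db_nt_A.FInterface
import Pool.Agent.Work.MP_2738db_nt_X.Interface

/-!
FFF: the flagship from the sieve theorem, Theorem W, STEP and TWA.
-/

set_option autoImplicit false

namespace Pool.Agent.Work.MP_2738db_nt_A.helper43

open Finset Filter
open Pool.Agent.Work.MP_2738db_nt_A

lemma omega_bound {k : ℕ} (hk : 1 ≤ k) : (k.primeFactors.card : ℝ) ≤ 2 * Real.log k := by
  have h1 : 2 ^ k.primeFactors.card ≤ k := by
    calc 2 ^ k.primeFactors.card ≤ ∏ p ∈ k.primeFactors, p :=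
          Finset.pow_card_le_prod _ _ _ (fun p hp => (Nat.prime_of_mem_primeFactors hp).two_le)
      _ ≤ k := Nat.le_of_dvd hk (Nat.prod_primeFactors_dvd k)
  have h2 : (k.primeFactors.card : ℝ) * Real.log 2 ≤ Real.log k := by
    rw [← Real.log_pow]
    apply Real.log_le_log (by positivity)
    exact_mod_cast h1
  have h3 : (1 / 2 : ℝ) ≤ Real.log 2 := by have := Real.log_two_gt_d9; linarith
  have h4 : (0 : ℝ) ≤ (k.primeFactors.card : ℝ) := Nat.cast_nonneg _
  nlinarith

lemma sq_le_exp {x : ℝ} (hx : 0 ≤ x) : (1 + x) ^ 2 ≤ 8 * Real.exp (x / 2) := by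
  have h := Real.quadratic_le_exp_of_nonneg (show 0 ≤ x / 2 by positivity)
  nlinarith

/-- numerical conditions for `u = log N` -/
structure Num (ε ε' CW CS CT u : ℝ) : Prop where
  u1 : 1 ≤ u
  two : Real.log 2 ≤ u ^ (1 - ε)
  U2 : 2 ≤ Real.exp (u ^ (1 - 2 * ε'))
  one : u ^ (1 - ε) ≤ u ^ (1 - 2 * ε')
  e1 : u ^ (1 - 4 * ε') ≤ u ^ (1 - 2 * ε')
  w : 2 * Real.exp (CW * u ^ (1 - 2 * ε')) ≤ Real.exp (u ^ (1 - ε'))
  mono : u ^ (1 - 2 * ε') ≤ u ^ (1 - ε')
  st : CS * 8 * Real.exp (2 * u ^ (1 - ε) + 2 * u ^ (1 - 4 * ε')) <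
    Real.exp (u ^ (1 - 2 * ε') / 2)
  tw : Real.log CT + 2 * Real.log 2 + (2 + 2 / ε) * u ^ (1 - 4 * ε') ≤ u ^ (1 - 2 * ε')

lemma num_ev {ε ε' CW CS CT : ℝ} (hε1 : ε < 1) (h' : 0 < ε') (h4 : 4 * ε' ≤ ε) : ∀ᶠ u in atTop, Num ε ε' CW CS CT u := by
  -- basic limits
  have L1 : ∀ a b C : ℝ, 0 < a → b < a → ∀ᶠ u : ℝ in atTop, C * u ^ b ≤ u ^ a := by
    intro a b C ha hb
    filter_upwards [(tendsto_rpow_atTop (sub_pos.mpr hb)).eventually_ge_atTop |C|,
      eventually_ge_atTop 1] with u hu hu1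
    have hu0 : (0 : ℝ) < u := by linarith
    have h1 : u ^ a = u ^ (a - b) * u ^ b := by rw [← Real.rpow_add hu0]; congr 1; ring
    rw [h1]
    apply mul_le_mul_of_nonneg_right _ (Real.rpow_nonneg hu0.le _)
    exact (le_abs_self C).trans hu
  have L2 : ∀ a C : ℝ, 0 < a → ∀ᶠ u : ℝ in atTop, C ≤ u ^ a := by
    intro a C ha
    exact (tendsto_rpow_atTop ha).eventually_ge_atTop C
  filter_upwards [eventually_ge_atTop 1, L2 (1 - ε) (Real.log 2) (by linarith),
    L2 (1 - 2 * ε') (Real.log 2) (by linarith),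
    L1 (1 - ε') (1 - 2 * ε') (2 * |CW|) (by linarith) (by linarith),
    L2 (1 - ε') (2 * Real.log 2) (by linarith),
    L1 (1 - 2 * ε') (1 - 4 * ε') 32 (by linarith) (by linarith),
    L2 (1 - 2 * ε') (4 * (Real.log (|CS| * 8 + 1) + 1)) (by linarith),
    L1 (1 - 2 * ε') (1 - 4 * ε') (2 * (2 + 2 / ε)) (by linarith) (by linarith),
    L2 (1 - 2 * ε') (2 * (Real.log CT + 2 * Real.log 2)) (by linarith)]
    with u hu a1 a2 a3 a4 a5 a6 a7 a8
  have hmono : ∀ {x y : ℝ}, x ≤ y → u ^ x ≤ u ^ y := fun h => Real.rpow_le_rpow_of_exponent_le hu h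
  refine ⟨hu, a1, ?_, hmono (by linarith), hmono (by linarith), ?_, hmono (by linarith), ?_, ?_⟩
  · rw [← Real.log_le_iff_le_exp (by norm_num)]; exact a2
  · have h2 : (2 : ℝ) = Real.exp (Real.log 2) := (Real.exp_log (by norm_num)).symm
    have h5 : 2 * Real.exp (CW * u ^ (1 - 2 * ε')) =
        Real.exp (Real.log 2 + CW * u ^ (1 - 2 * ε')) := by rw [Real.exp_add, ← h2]
    rw [h5]
    apply Real.exp_le_exp.mpr
    have h0 : 0 ≤ u ^ (1 - 2 * ε') := Real.rpow_nonneg (by linarith) _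
    have h3 : CW * u ^ (1 - 2 * ε') ≤ |CW| * u ^ (1 - 2 * ε') :=
      mul_le_mul_of_nonneg_right (le_abs_self _) h0
    linarith
  · have h0 : 0 < |CS| * 8 + 1 := by positivity
    have h3 : CS * 8 ≤ Real.exp (Real.log (|CS| * 8 + 1)) := by
      rw [Real.exp_log h0]; linarith [le_abs_self CS]
    calc CS * 8 * Real.exp (2 * u ^ (1 - ε) + 2 * u ^ (1 - 4 * ε'))
        ≤ Real.exp (Real.log (|CS| * 8 + 1)) * Real.exp (2 * u ^ (1 - ε) + 2 * u ^ (1 - 4 * ε')) :=
          mul_le_mul_of_nonneg_right h3 (Real.exp_pos _).le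
      _ = Real.exp (Real.log (|CS| * 8 + 1) + (2 * u ^ (1 - ε) + 2 * u ^ (1 - 4 * ε'))) :=
          (Real.exp_add _ _).symm
      _ < _ := by
          apply Real.exp_lt_exp.mpr
          have h5 : u ^ (1 - ε) ≤ u ^ (1 - 4 * ε') := hmono (by linarith)
          have h6 : 0 ≤ u ^ (1 - 4 * ε') := Real.rpow_nonneg (by linarith) _
          linarith
  · linarith

lemma set_bound {κ : ℝ} (hκ : 0 < κ) : ∃ κ' N₀ : ℝ, 0 < κ' ∧ ∀ N : ℝ, N₀ ≤ N → 1 ≤ N →
    N ^ (1 - κ) + 1 ≤ N ^ (1 - κ') := by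
  refine ⟨min κ 1 / 2, 2 ^ (2 / min κ 1), by positivity, ?_⟩
  intro N hN hN1
  set k := min κ 1 with hk
  have hk0 : 0 < k := by positivity
  have hk1 : k ≤ 1 := min_le_right _ _
  have hkκ : k ≤ κ := min_le_left _ _
  have hN0 : 0 < N := by linarith
  have h1 : N ^ (1 - κ) ≤ N ^ (1 - k) := Real.rpow_le_rpow_of_exponent_le hN1 (by linarith)
  have h2 : (1 : ℝ) ≤ N ^ (1 - k) := Real.one_le_rpow hN1 (by linarith)
  have h3 : (2 : ℝ) ≤ N ^ (k / 2) := by
    have h4 : ((2 : ℝ) ^ (2 / k)) ^ (k / 2) ≤ N ^ (k / 2) :=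
      Real.rpow_le_rpow (by positivity) hN (by positivity)
    rw [← Real.rpow_mul (by norm_num)] at h4
    have h5 : 2 / k * (k / 2) = 1 := by field_simp
    rw [h5, Real.rpow_one] at h4
    exact h4
  calc N ^ (1 - κ) + 1 ≤ 2 * N ^ (1 - k) := by linarith
    _ ≤ N ^ (k / 2) * N ^ (1 - k) := mul_le_mul_of_nonneg_right h3 (by linarith)
    _ = N ^ (1 - k / 2) := by rw [← Real.rpow_add hN0]; congr 1; ring

theorem stmt_F (hX0 : Stmt_X0) (hW : Stmt_W) (hS : MP_2738db_nt_U.Stmt_Step)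
    (hT : MP_2738db_nt_X.Stmt_Twa) : Stmt_F := by
  obtain ⟨CW, hCW, hW⟩ := hW
  obtain ⟨CS, hCS, hS⟩ := hS
  obtain ⟨CT, hCT, hT⟩ := hT
  intro ε hε hε1
  set e1 : ℝ := ε / (1 + ε) with he1
  have he1' : 0 < e1 := by positivity
  have he1ε : e1 ≤ ε := by
    rw [he1, div_le_iff₀ (by linarith)]; nlinarith
  have he11 : e1 < 1 := by linarith
  set ε' : ℝ := e1 / 4 with hε'
  have h0' : 0 < ε' := by positivity
  obtain ⟨κ, X₀, hκ, hX⟩ := hX0 ε' h0' (by linarith)
  obtain ⟨κ', N₀, hκ', hN₀⟩ := set_bound hκ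
  obtain ⟨u₀, hu₀⟩ := eventually_atTop.mp
    (num_ev (ε := ε) (ε' := ε') (CW := CW) (CS := CS) (CT := CT) hε1 h0' (by linarith))
  -- `X` large forces `log N` large
  have hlim : Tendsto (fun x : ℝ => Real.log (Real.log x) ^ (1 + ε)) atTop atTop :=
    (tendsto_rpow_atTop (by linarith)).comp (Real.tendsto_log_atTop.comp Real.tendsto_log_atTop)
  obtain ⟨x₁, hx₁⟩ := eventually_atTop.mp (hlim.eventually_ge_atTop (max u₀ (Real.log (max N₀ 1))))
  refine ⟨κ', max X₀ (max x₁ (Real.exp (Real.exp 1))), hκ', ?_⟩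
  intro X N b g r hXX hN hb hbX hg hgN
  have hX₀ : X₀ ≤ X := le_trans (le_max_left _ _) hXX
  have hx : x₁ ≤ X := le_trans (le_trans (le_max_left _ _) (le_max_right _ _)) hXX
  have hXe : Real.exp (Real.exp 1) ≤ X :=
    le_trans (le_trans (le_max_right _ _) (le_max_right _ _)) hXX
  set V := Real.log X with hV
  have hXpos : (0 : ℝ) < X := lt_of_lt_of_le (Real.exp_pos _) hXe
  have hV1 : Real.exp 1 ≤ V := by
    rw [hV, Real.le_log_iff_exp_le hXpos]; exact hXe
  have hVpos : 0 < V := lt_of_lt_of_le (Real.exp_pos _) hV1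
  have hV1' : 1 ≤ V := le_trans (by have := Real.add_one_le_exp (1 : ℝ); linarith) hV1
  have hlV : 1 ≤ Real.log V := by
    rw [Real.le_log_iff_exp_le hVpos]; exact hV1
  have hNpos : (0 : ℝ) < N := lt_of_lt_of_le (Real.exp_pos _) hN
  set u := Real.log N with hu
  have hu1 : Real.log V ^ (1 + ε) ≤ u := by
    rw [hu, Real.le_log_iff_exp_le hNpos]; exact hN
  have hmax := le_trans (hx₁ X hx) hu1
  have num := hu₀ u (le_trans (le_max_left _ _) hmax)
  have hNN : max N₀ 1 ≤ N := by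
    have h1 : Real.log (max N₀ 1) ≤ Real.log N := le_trans (le_max_right _ _) hmax
    exact (Real.log_le_log_iff (by positivity) hNpos).mp h1
  have hu0 : (0 : ℝ) < u := by have := num.u1; linarith
  have hlVu : Real.log V ≤ u ^ (1 - 4 * ε') := by
    have h1 : (Real.log V ^ (1 + ε)) ^ (1 / (1 + ε)) ≤ u ^ (1 / (1 + ε)) :=
      Real.rpow_le_rpow (Real.rpow_nonneg (by linarith) _) hu1 (by positivity)
    rw [← Real.rpow_mul (by linarith)] at h1
    have h2 : (1 + ε) * (1 / (1 + ε)) = 1 := by field_simp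
    have h3 : 1 / (1 + ε) = 1 - 4 * ε' := by
      rw [hε', he1]; field_simp; ring
    rw [h2, Real.rpow_one, h3] at h1
    exact h1
  have hVU : V ≤ Real.exp (u ^ (1 - 2 * ε')) := by
    rw [← Real.log_le_iff_le_exp hVpos]; exact hlVu.trans num.e1
  have hXN := hX X N b g r hX₀ (by
    refine le_trans ?_ hN
    apply Real.exp_le_exp.mpr
    exact Real.rpow_le_rpow_of_exponent_le hlV (by linarith)) hb hbX hg hgN
  -- the inclusion
  set SX := {x : ℕ | 1 ≤ x ∧ x ≤ N ∧ Nat.Coprime b (g * x + r) ∧ ∃ a l n k : ℕ, 1 ≤ a ∧ l.Prime ∧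
        Real.log l ≤ (Real.log N) ^ (1 - ε') ∧ 1 ≤ n ∧ 1 ≤ k ∧
        (k.primeFactors.card : ℝ) ≤ Real.exp ((Real.log N) ^ (1 - ε')) ∧
        (a ^ l + b ^ n = (g * x + r) ^ k ∨ b ^ n + (g * x + r) ^ k = a ^ l ∨
          (g * x + r) ^ k + a ^ l = b ^ n)} with hSX
  have hSXfin : SX.Finite := (Set.finite_Icc 1 N).subset (fun x hx => ⟨hx.1, hx.2.1⟩)
  have hlog_le : ∀ d : ℕ, d ≤ X → Real.log d ≤ V := by
    intro d hd
    rcases Nat.eq_zero_or_pos d with h0 | h0
    · rw [h0]; simp only [Nat.cast_zero, Real.log_zero]; exact hVpos.le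
    · exact Real.log_le_log (by exact_mod_cast h0) (by exact_mod_cast hd)
  -- given a small prime exponent, we are in `SX`
  have key : ∀ x : ℕ, 1 ≤ x → x ≤ N → Nat.Coprime b (g * x + r) → 2 ≤ g * x + r →
      ∀ a l n k : ℕ, 1 ≤ a → l.Prime → Real.log l ≤ u ^ (1 - 2 * ε') → 1 ≤ n → 1 ≤ k →
      (a ^ l + b ^ n = (g * x + r) ^ k ∨ b ^ n + (g * x + r) ^ k = a ^ l ∨
          (g * x + r) ^ k + a ^ l = b ^ n) → x ∈ SX := by
    intro x hx1 hxN hcop hc a l n k ha hl hll hn hk heq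
    have hcX : g * x + r ≤ X := le_trans (by gcongr) hgN
    have h1 := hW l a b (g * x + r) n k (Real.exp (u ^ (1 - 2 * ε'))) hl hb hc hcop ha hn hk heq
      num.U2 (by
        rw [← Real.log_le_iff_le_exp (by exact_mod_cast hl.pos)]; exact hll)
      ((hlog_le b hbX).trans hVU) ((hlog_le _ hcX).trans hVU)
    refine ⟨hx1, hxN, hcop, a, l, n, k, ha, hl, ?_, hn, hk, ?_, heq⟩
    · exact hll.trans num.mono
    · refine (omega_bound hk).trans ?_
      refine le_trans (mul_le_mul_of_nonneg_left h1.2 (by norm_num)) ?_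
      rw [← Real.exp_mul, mul_comm (u ^ (1 - 2 * ε')) CW]
      exact num.w
  -- STEP
  have step : ∀ x : ℕ, 1 ≤ x → x ≤ N → Nat.Coprime b (g * x + r) → 2 ≤ g * x + r →
      ∀ a l n k p : ℕ, 2 ≤ a → l.Prime → 1 ≤ n → 1 ≤ k → p.Prime → p ∣ b * (g * x + r) →
      Real.log p ≤ u ^ (1 - ε) →
      (a ^ l + b ^ n = (g * x + r) ^ k ∨ b ^ n + (g * x + r) ^ k = a ^ l ∨
          (g * x + r) ^ k + a ^ l = b ^ n) → Real.log l ≤ u ^ (1 - 2 * ε') := by
    intro x hx1 hxN hcop hc a l n k p ha hl hn hk hp hpd hlp heq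
    by_contra hcon
    rw [not_le] at hcon
    have hcX : g * x + r ≤ X := le_trans (by gcongr) hgN
    have hl0 : (0 : ℝ) < l := by exact_mod_cast hl.pos
    have hll : 0 ≤ Real.log l := Real.log_nonneg (by exact_mod_cast hl.one_lt.le)
    have hp0 : (0 : ℝ) < p := by exact_mod_cast hp.pos
    have h1 := hS a b (g * x + r) n k l p p V ha hb hc hcop hn hk hl hp hpd
      (by exact_mod_cast hp.two_le) le_rfl hV1' (hlog_le b hbX) (hlog_le _ hcX) (by
        have h2 : (p : ℝ) ^ 2 * V ^ 2 ≤ Real.exp (2 * u ^ (1 - ε) + 2 * u ^ (1 - 4 * ε')) := by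
          rw [Real.exp_add, two_mul, two_mul, Real.exp_add, Real.exp_add, sq, sq]
          have h3 : (p : ℝ) ≤ Real.exp (u ^ (1 - ε)) := by
            rw [← Real.log_le_iff_le_exp hp0]; exact hlp
          have h4 : V ≤ Real.exp (u ^ (1 - 4 * ε')) := by
            rw [← Real.log_le_iff_le_exp hVpos]; exact hlVu
          gcongr
        calc CS * (p : ℝ) ^ 2 * V ^ 2 * (1 + Real.log l) ^ 2
            = CS * ((p : ℝ) ^ 2 * V ^ 2) * (1 + Real.log l) ^ 2 := by ring
          _ ≤ CS * Real.exp (2 * u ^ (1 - ε) + 2 * u ^ (1 - 4 * ε')) * (8 * Real.exp (Real.log l / 2)) := by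
              have h5 := sq_le_exp hll
              gcongr
          _ = (CS * 8 * Real.exp (2 * u ^ (1 - ε) + 2 * u ^ (1 - 4 * ε'))) * Real.exp (Real.log l / 2) := by
              ring
          _ < Real.exp (u ^ (1 - 2 * ε') / 2) * Real.exp (Real.log l / 2) :=
              mul_lt_mul_of_pos_right num.st (Real.exp_pos _)
          _ ≤ Real.exp (Real.log l / 2) * Real.exp (Real.log l / 2) := by
              apply mul_le_mul_of_nonneg_right _ (Real.exp_pos _).le
              apply Real.exp_le_exp.mpr; linarith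
          _ = l := by rw [← Real.exp_add, add_halves, Real.exp_log hl0])
    rcases heq with h | h | h
    · exact h1.1 h
    · exact h1.2.1 h
    · exact h1.2.2 h
  have hsub : {x : ℕ | 1 ≤ x ∧ x ≤ N ∧ Nat.Coprime b (g * x + r) ∧ ∃ a m n k : ℕ, 1 ≤ a ∧ 2 ≤ m ∧
        1 ≤ n ∧ 1 ≤ k ∧
        ((∃ p : ℕ, p.Prime ∧ p ∣ m * b * (g * x + r) ∧ Real.log p ≤ (Real.log N) ^ (1 - ε)) ∨
          (Real.log n ≤ (Real.log X) ^ (1 / ε) ∧ Real.log k ≤ (Real.log X) ^ (1 / ε))) ∧
        (a ^ m + b ^ n = (g * x + r) ^ k ∨ b ^ n + (g * x + r) ^ k = a ^ m ∨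
          (g * x + r) ^ k + a ^ m = b ^ n)} ⊆ SX ∪ {x : ℕ | g * x + r = 1} := by
    rintro x ⟨hx1, hxN, hcop, a, m, n, k, ha, hm, hn, hk, hcond, heq⟩
    have hc0 : 1 ≤ g * x + r := by
      have := Nat.mul_le_mul hg hx1
      omega
    rcases Nat.lt_or_ge (g * x + r) 2 with hc | hc
    · right
      show g * x + r = 1
      omega
    left
    have hcX : g * x + r ≤ X := le_trans (by gcongr) hgN
    by_cases ha1 : a = 1
    · subst ha1
      refine key x hx1 hxN hcop hc 1 2 n k le_rfl Nat.prime_two ?_ hn hk (by simpa using heq)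
      have := num.two.trans num.one
      exact_mod_cast this
    have ha2 : 2 ≤ a := by omega
    have hmne : m ≠ 1 := by omega
    -- it is enough to find a prime `l ∣ m` with `log l ≤ u ^ (1 - 2 ε')`
    suffices h : ∃ l : ℕ, l.Prime ∧ l ∣ m ∧ Real.log l ≤ u ^ (1 - 2 * ε') by
      obtain ⟨l, hl, ⟨m', rfl⟩, hll⟩ := h
      refine key x hx1 hxN hcop hc (a ^ m') l n k (Nat.one_le_pow _ _ (by omega)) hl hll hn hk ?_
      have h2 : (a ^ m') ^ l = a ^ (l * m') := by rw [← pow_mul, mul_comm]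
      rw [h2]; exact heq
    have hbc : ∀ p : ℕ, p.Prime → p ∣ b * (g * x + r) → Real.log p ≤ u ^ (1 - ε) →
        ∃ l : ℕ, l.Prime ∧ l ∣ m ∧ Real.log l ≤ u ^ (1 - 2 * ε') := by
      intro p hp hpd hlp
      obtain ⟨l, hl, m', hlm⟩ := Nat.exists_prime_and_dvd hmne
      refine ⟨l, hl, ⟨m', hlm⟩, ?_⟩
      have hm' : m' ≠ 0 := by
        rintro rfl
        rw [mul_zero] at hlm; omega
      refine step x hx1 hxN hcop hc (a ^ m') l n k p ?_ hl hn hk hp hpd hlp ?_
      · calc 2 ≤ a := ha2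
          _ = a ^ 1 := (pow_one a).symm
          _ ≤ a ^ m' := Nat.pow_le_pow_right (by omega) (by omega)
      · have h2 : (a ^ m') ^ l = a ^ m := by rw [← pow_mul, mul_comm, hlm]
        rw [h2]; exact heq
    rcases hcond with ⟨p, hp, hpd, hlp⟩ | ⟨hln, hlk⟩
    · rw [mul_assoc] at hpd
      rcases hp.dvd_mul.mp hpd with h | h
      · exact ⟨p, hp, h, hlp.trans num.one⟩
      · exact hbc p hp h hlp
    · by_cases h2 : 2 ∣ b * (g * x + r)
      · exact hbc 2 Nat.prime_two h2 (by exact_mod_cast num.two)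
      · have hb2 : ¬ 2 ∣ b := fun h => h2 (Dvd.dvd.mul_right h _)
        have hc2 : ¬ 2 ∣ g * x + r := fun h => h2 (Dvd.dvd.mul_left h _)
        have hbo : Odd (b ^ n) := Odd.pow (Nat.odd_iff.mpr (by omega))
        have hco : Odd ((g * x + r) ^ k) := Odd.pow (Nat.odd_iff.mpr (by omega))
        have hae : Even (a ^ m) := by
          rcases heq with h | h | h
          · have : ¬ Odd (a ^ m) := by
              intro ho
              have := ho.add_odd hbo
              rw [h] at this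
              exact (Nat.not_even_iff_odd.mpr hco) this
            exact Nat.not_odd_iff_even.mp this
          · rw [← h]; exact hbo.add_odd hco
          · have : ¬ Odd (a ^ m) := by
              intro ho
              have := hco.add_odd ho
              rw [h] at this
              exact (Nat.not_even_iff_odd.mpr hbo) this
            exact Nat.not_odd_iff_even.mp this
        have ha2' : 2 ∣ a := by
          have h3 := hae.two_dvd
          exact Nat.prime_two.dvd_of_dvd_pow h3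
        have hdvd : (2 : ℤ) ^ m ∣ (a : ℤ) ^ m := by
          exact pow_dvd_pow_of_dvd (by exact_mod_cast ha2') m
        have hlam1 : 1 ≤ V ^ (1 / ε) := Real.one_le_rpow hV1' (by positivity)
        have h4 := hT b (g * x + r) n k m V (V ^ (1 / ε)) hb hc hb2 hc2 hcop hn hk hV1'
          (hlog_le b hbX) (hlog_le _ hcX) hlam1 hln hlk (by
            rcases heq with h | h | h
            · left
              have h5 : (a : ℤ) ^ m = ((g * x + r : ℕ) : ℤ) ^ k - (b : ℤ) ^ n := by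
                have : ((a ^ m + b ^ n : ℕ) : ℤ) = (((g * x + r) ^ k : ℕ) : ℤ) := by rw [h]
                push_cast at this ⊢
                linarith
              rw [← h5]; exact hdvd
            · right
              have h5 : (a : ℤ) ^ m = ((g * x + r : ℕ) : ℤ) ^ k + (b : ℤ) ^ n := by
                have : ((b ^ n + (g * x + r) ^ k : ℕ) : ℤ) = ((a ^ m : ℕ) : ℤ) := by rw [h]
                push_cast at this ⊢
                linarith
              rw [← h5]; exact hdvd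
            · left
              have h5 : ((g * x + r : ℕ) : ℤ) ^ k - (b : ℤ) ^ n = -(a : ℤ) ^ m := by
                have : (((g * x + r) ^ k + a ^ m : ℕ) : ℤ) = ((b ^ n : ℕ) : ℤ) := by rw [h]
                push_cast at this ⊢
                linarith
              rw [h5]; exact (dvd_neg).mpr hdvd)
        refine ⟨m.minFac, Nat.minFac_prime hmne, Nat.minFac_dvd m, ?_⟩
        have hm0 : (0 : ℝ) < m := by exact_mod_cast (by omega : 0 < m)
        have h6 : Real.log m.minFac ≤ Real.log m :=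
          Real.log_le_log (by exact_mod_cast (Nat.minFac_pos m))
            (by exact_mod_cast Nat.minFac_le (by omega))
        refine h6.trans ?_
        have h7 : (m : ℝ) ≤ CT * V ^ 2 * (2 * V ^ (1 / ε)) ^ 2 := by
          refine h4.trans ?_
          have : 1 + V ^ (1 / ε) ≤ 2 * V ^ (1 / ε) := by linarith
          gcongr
        have h8 := Real.log_le_log hm0 h7
        have hVe : 0 < V ^ (1 / ε) := Real.rpow_pos_of_pos hVpos _
        have hCT0 : 0 < CT := by linarith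
        rw [Real.log_mul (by positivity) (by positivity), Real.log_mul (by positivity) (by positivity),
          Real.log_pow, Real.log_pow, Real.log_mul (by norm_num) (by positivity),
          Real.log_rpow hVpos] at h8
        push_cast at h8
        refine h8.trans (le_trans ?_ num.tw)
        have h9 : (2 + 2 / ε) * Real.log V ≤ (2 + 2 / ε) * u ^ (1 - 4 * ε') :=
          mul_le_mul_of_nonneg_left hlVu (by positivity)
        have h10 : (2 + 2 / ε) * Real.log V = 2 * Real.log V + 2 * (1 / ε * Real.log V) := by ring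
        linarith
  -- counting
  have hone : ({x : ℕ | g * x + r = 1} : Set ℕ).Subsingleton := by
    intro x hx y hy
    have h1 : g * x + r = 1 := hx
    have h2 : g * y + r = 1 := hy
    have h3 : g * x = g * y := by omega
    exact Nat.eq_of_mul_eq_mul_left (by omega) h3
  have hcard : (({x : ℕ | 1 ≤ x ∧ x ≤ N ∧ Nat.Coprime b (g * x + r) ∧ ∃ a m n k : ℕ, 1 ≤ a ∧ 2 ≤ m ∧
        1 ≤ n ∧ 1 ≤ k ∧
        ((∃ p : ℕ, p.Prime ∧ p ∣ m * b * (g * x + r) ∧ Real.log p ≤ (Real.log N) ^ (1 - ε)) ∨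
          (Real.log n ≤ (Real.log X) ^ (1 / ε) ∧ Real.log k ≤ (Real.log X) ^ (1 / ε))) ∧
        (a ^ m + b ^ n = (g * x + r) ^ k ∨ b ^ n + (g * x + r) ^ k = a ^ m ∨
          (g * x + r) ^ k + a ^ m = b ^ n)} : Set ℕ).ncard : ℝ) ≤ (SX.ncard : ℝ) + 1 := by
    have h1 := Set.ncard_le_ncard hsub (hSXfin.union hone.finite)
    have h2 := Set.ncard_union_le SX {x : ℕ | g * x + r = 1}
    have h3 : ({x : ℕ | g * x + r = 1} : Set ℕ).ncard ≤ 1 := by
      haveI : Finite ({x : ℕ | g * x + r = 1} : Set ℕ) := hone.finite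
      rw [Set.ncard_le_one_iff_subsingleton]
      exact hone
    have h4 := h1.trans (h2.trans (Nat.add_le_add_left h3 _))
    exact_mod_cast h4
  refine hcard.trans ?_
  refine le_trans (add_le_add_left hXN 1) ?_
  exact hN₀ N (le_trans (le_max_left _ _) hNN) (le_trans (le_max_right _ _) hNN)

end Pool.Agent.Work.MP_2738db_nt_A.helper43
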