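import Pool.Agent.Work.MP_2738db_nt_A_helper43.NCR
import Pool.Agent.Work.MP_2738db_nt_X_helper40.Flag

/-!
The form of Theorem FB without side condition.
-/

set_option autoImplicit false
set_option maxHeartbeats 1000000

namespace Pool.Agent.Work.MP_2738db_nt_A_helper43.NC

open Filter

/-- Theorem FB with an unconditional count in front. -/
def Stmt_NC : Prop :=
  ∀ ε : ℝ, 0 < ε → ∃ κ : ℝ, 0 < κ ∧ ∀ A : ℝ, ∃ X₀ : ℝ, ∀ (X N g r : ℕ) (B : Finset ℕ), X₀ ≤ X →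
    Real.exp (Real.log (Real.log X) ^ (1 + ε)) ≤ N → (B.card : ℝ) ≤ (N : ℝ) ^ κ →
    (∀ b ∈ B, 2 ≤ b ∧ b ≤ X) → 1 ≤ g → g * N + r ≤ X →
    ({x : ℕ | 1 ≤ x ∧ x ≤ N ∧ ∃ b ∈ B, Nat.Coprime b (g * x + r) ∧ ∃ a m n k : ℕ, 1 ≤ a ∧
        2 ≤ m ∧ 1 ≤ n ∧ 1 ≤ k ∧
        (a ^ m + b ^ n = (g * x + r) ^ k ∨ b ^ n + (g * x + r) ^ k = a ^ m ∨
          (g * x + r) ^ k + a ^ m = b ^ n)}.ncard : ℝ)
      ≤ min ((g : ℝ) / g.totient * (N / Real.log N ^ (1 - ε))) (N / Real.log N ^ κ) ∧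
    ({x : ℕ | 1 ≤ x ∧ x ≤ N ∧ ∃ b ∈ B, Nat.Coprime b (g * x + r) ∧ ∃ a m n k : ℕ, 1 ≤ a ∧
        2 ≤ m ∧ 1 ≤ n ∧ 1 ≤ k ∧
        ((Real.log n ≤ (Real.log X) ^ A ∧ Real.log k ≤ (Real.log X) ^ A) ∨
          ∃ p : ℕ, p.Prime ∧ Real.log p ≤ (Real.log N) ^ (1 - ε) ∧ p ∣ m * b * (g * x + r)) ∧
        (a ^ m + b ^ n = (g * x + r) ^ k ∨ b ^ n + (g * x + r) ^ k = a ^ m ∨
          (g * x + r) ^ k + a ^ m = b ^ n)}.ncard : ℝ) ≤ (N : ℝ) ^ (1 - κ)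

theorem stmt_NC (hFB : MP_2738db_nt_X.helper40.Stmt_FB) : Stmt_NC := by
  intro ε hε
  obtain ⟨η, hη⟩ : ∃ η, η = min ε 1 := ⟨_, rfl⟩
  have hη0 : 0 < η := by rw [hη]; exact lt_min hε one_pos
  have hη1 : η ≤ 1 := by rw [hη]; exact min_le_right _ _
  have hηε : η ≤ ε := by rw [hη]; exact min_le_left _ _
  obtain ⟨κ', hκ', hF⟩ := hFB (η / 4) (by positivity)
  obtain ⟨C, hC, hphi⟩ := phi_le
  obtain ⟨κ, hκd⟩ : ∃ κ, κ = min κ' (η / 8) := ⟨_, rfl⟩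
  have hκ : 0 < κ := by rw [hκd]; exact lt_min hκ' (by positivity)
  have hκκ' : κ ≤ κ' := by rw [hκd]; exact min_le_left _ _
  have hκη : κ ≤ η / 8 := by rw [hκd]; exact min_le_right _ _
  refine ⟨κ, hκ, fun A => ?_⟩
  obtain ⟨X₁, hX₁⟩ := hF A
  -- large t
  have e1 : ∀ᶠ t : ℝ in atTop, 64 ≤ t ^ (η / 4) :=
    (tendsto_rpow_atTop (by positivity)).eventually_ge_atTop 64
  have e2 : ∀ᶠ t : ℝ in atTop, 64 * C ≤ t ^ (η / 8) :=
    (tendsto_rpow_atTop (by positivity)).eventually_ge_atTop (64 * C)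
  have e3 : ∀ᶠ t : ℝ in atTop, 2 ≤ Real.exp (κ' * t) / t ^ (1 : ℝ) :=
    (tendsto_exp_mul_div_rpow_atTop 1 κ' hκ').eventually_ge_atTop 2
  obtain ⟨t₀, ht₀⟩ := (((e1.and e2).and e3).and (eventually_ge_atTop (1 : ℝ))).exists_forall_of_atTop
  refine ⟨max (max X₁ (Real.exp (Real.exp 1))) (Real.exp (Real.exp t₀)), ?_⟩
  intro X N g r B hX hN hBc hB hg hgN
  have hXa : X₁ ≤ X := le_trans (le_trans (le_max_left _ _) (le_max_left _ _)) hX
  have hXb : Real.exp (Real.exp 1) ≤ X := le_trans (le_trans (le_max_right _ _) (le_max_left _ _)) hX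
  have hXc : Real.exp (Real.exp t₀) ≤ X := le_trans (le_max_right _ _) hX
  have hX0 : (0 : ℝ) < X := lt_of_lt_of_le (Real.exp_pos _) hXb
  have hlX : Real.exp 1 ≤ Real.log X := by
    rw [Real.le_log_iff_exp_le hX0]; exact hXb
  have hlX0 : 0 < Real.log X := lt_of_lt_of_le (Real.exp_pos _) hlX
  have hllX : 1 ≤ Real.log (Real.log X) := by
    rw [Real.le_log_iff_exp_le hlX0]; exact hlX
  have hllXt : t₀ ≤ Real.log (Real.log X) := by
    rw [Real.le_log_iff_exp_le hlX0, Real.le_log_iff_exp_le hX0]; exact hXc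
  obtain ⟨l, hl⟩ : ∃ l, l = Real.log (Real.log X) := ⟨_, rfl⟩
  rw [← hl] at hllX hllXt hN
  have hNr : (0 : ℝ) < N := lt_of_lt_of_le (Real.exp_pos _) hN
  have hN1 : 1 ≤ N := by
    have : 0 < N := by exact_mod_cast hNr
    omega
  obtain ⟨t, ht⟩ : ∃ t, t = Real.log N := ⟨_, rfl⟩
  have hNt : (N : ℝ) = Real.exp t := by rw [ht, Real.exp_log hNr]
  have htl : l ^ (1 + ε) ≤ t := by
    rw [ht, Real.le_log_iff_exp_le hNr]; exact hN
  have hlt : l ≤ t := by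
    refine le_trans ?_ htl
    calc l = l ^ (1 : ℝ) := (Real.rpow_one l).symm
      _ ≤ l ^ (1 + ε) := Real.rpow_le_rpow_of_exponent_le hllX (by linarith)
  obtain ⟨⟨⟨c1, c2⟩, c3⟩, c4⟩ := ht₀ t (by linarith)
  have ht0 : 0 < t := by linarith
  rw [← ht]
  -- condition for FB
  have hN' : Real.exp (Real.log (Real.log X) ^ (1 + η / 4)) ≤ N := by
    refine le_trans ?_ hN
    rw [← hl]
    apply Real.exp_le_exp.2
    exact Real.rpow_le_rpow_of_exponent_le hllX (by linarith)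
  have hN1r : (1 : ℝ) ≤ N := by exact_mod_cast hN1
  have hBc' : (B.card : ℝ) ≤ (N : ℝ) ^ κ' :=
    hBc.trans (Real.rpow_le_rpow_of_exponent_le hN1r hκκ')
  have hmain := hX₁ X N g r B hXa hN' hBc' hB hg hgN
  rw [← ht] at hmain
  have hlt1 : t ^ (1 - ε) ≤ t ^ (1 - η / 4) := Real.rpow_le_rpow_of_exponent_le c4 (by linarith)
  have hNκ : (N : ℝ) ^ (1 - κ') ≤ (N : ℝ) ^ (1 - κ) :=
    Real.rpow_le_rpow_of_exponent_le hN1r (by linarith)
  have hfin : ∀ S : Set ℕ, S ⊆ {x : ℕ | 1 ≤ x ∧ x ≤ N} → S.Finite := by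
    intro S hS
    apply (Set.finite_Icc 1 N).subset
    intro x hx
    exact hS hx
  constructor
  · -- the unconditional count
    obtain ⟨S1, hS1⟩ : ∃ S1 : Set ℕ, S1 = {x : ℕ | 1 ≤ x ∧ x ≤ N ∧ ∃ b ∈ B,
        Nat.Coprime b (g * x + r) ∧ ∃ a m n k : ℕ, 1 ≤ a ∧ 2 ≤ m ∧ 1 ≤ n ∧ 1 ≤ k ∧
        ((Real.log n ≤ (Real.log X) ^ A ∧ Real.log k ≤ (Real.log X) ^ A) ∨
          ∃ p : ℕ, p.Prime ∧ Real.log p ≤ t ^ (1 - η / 4) ∧ p ∣ m * b * (g * x + r)) ∧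
        (a ^ m + b ^ n = (g * x + r) ^ k ∨ b ^ n + (g * x + r) ^ k = a ^ m ∨
          (g * x + r) ^ k + a ^ m = b ^ n)} := ⟨_, rfl⟩
    rw [← hS1] at hmain
    have hL0 : 0 < t ^ (1 - η / 4) := Real.rpow_pos_of_pos ht0 _
    have hsplit : t ^ (1 - η / 4) * t ^ (η / 4) = t := by
      rw [← Real.rpow_add ht0]; norm_num
    have hL2 : 2 * t ^ (1 - η / 4) ≤ Real.log N := by
      rw [← ht]
      calc 2 * t ^ (1 - η / 4) = t ^ (1 - η / 4) * 2 := mul_comm _ _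
        _ ≤ t ^ (1 - η / 4) * t ^ (η / 4) := mul_le_mul_of_nonneg_left (by linarith) hL0.le
        _ = t := hsplit
    have hR := rough_ap g r N hg hN1 (t ^ (1 - η / 4)) hL0 hL2
    have hsub : {x : ℕ | 1 ≤ x ∧ x ≤ N ∧ ∃ b ∈ B, Nat.Coprime b (g * x + r) ∧
        ∃ a m n k : ℕ, 1 ≤ a ∧ 2 ≤ m ∧ 1 ≤ n ∧ 1 ≤ k ∧
        (a ^ m + b ^ n = (g * x + r) ^ k ∨ b ^ n + (g * x + r) ^ k = a ^ m ∨
          (g * x + r) ^ k + a ^ m = b ^ n)} ⊆ S1 ∪ Ro g r N (t ^ (1 - η / 4)) := by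
      rintro x ⟨hx1, hxN, b, hb, hco, a, m, n, k, ha, hm, hn, hk, heq⟩
      by_cases hx : ∃ p : ℕ, p.Prime ∧ Real.log p ≤ t ^ (1 - η / 4) ∧ p ∣ g * x + r
      · left
        obtain ⟨p, hp, hp1, hp2⟩ := hx
        rw [hS1]
        exact ⟨hx1, hxN, b, hb, hco, a, m, n, k, ha, hm, hn, hk,
          Or.inr ⟨p, hp, hp1, Dvd.dvd.mul_left hp2 _⟩, heq⟩
      · right
        push Not at hx
        exact ⟨hx1, hxN, fun p hp hp1 => hx p hp hp1⟩
    have hfin1 : (S1 ∪ Ro g r N (t ^ (1 - η / 4))).Finite := by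
      apply hfin
      intro x hx
      rcases hx with hx | hx
      · rw [hS1] at hx; exact ⟨hx.1, hx.2.1⟩
      · exact ⟨hx.1, hx.2.1⟩
    have hc1 : ({x : ℕ | 1 ≤ x ∧ x ≤ N ∧ ∃ b ∈ B, Nat.Coprime b (g * x + r) ∧
        ∃ a m n k : ℕ, 1 ≤ a ∧ 2 ≤ m ∧ 1 ≤ n ∧ 1 ≤ k ∧
        (a ^ m + b ^ n = (g * x + r) ^ k ∨ b ^ n + (g * x + r) ^ k = a ^ m ∨
          (g * x + r) ^ k + a ^ m = b ^ n)}.ncard : ℝ)
        ≤ (N : ℝ) ^ (1 - κ') + 32 * ((g : ℝ) / g.totient) * (N / t ^ (1 - η / 4)) := by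
      have h1 := Set.ncard_le_ncard hsub hfin1
      have h2 := Set.ncard_union_le S1 (Ro g r N (t ^ (1 - η / 4)))
      have h3 : (({x : ℕ | 1 ≤ x ∧ x ≤ N ∧ ∃ b ∈ B, Nat.Coprime b (g * x + r) ∧
        ∃ a m n k : ℕ, 1 ≤ a ∧ 2 ≤ m ∧ 1 ≤ n ∧ 1 ≤ k ∧
        (a ^ m + b ^ n = (g * x + r) ^ k ∨ b ^ n + (g * x + r) ^ k = a ^ m ∨
          (g * x + r) ^ k + a ^ m = b ^ n)}.ncard : ℕ) : ℝ)
          ≤ (S1.ncard : ℝ) + ((Ro g r N (t ^ (1 - η / 4))).ncard : ℝ) := by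
        exact_mod_cast h1.trans h2
      linarith
    refine hc1.trans ?_
    -- numerical facts
    have hφ : (0 : ℝ) < g.totient := by exact_mod_cast Nat.totient_pos.mpr hg
    have hG1 : 1 ≤ (g : ℝ) / g.totient := by
      rw [one_le_div hφ]
      exact_mod_cast Nat.totient_le g
    obtain ⟨G, hG⟩ : ∃ G, G = (g : ℝ) / g.totient := ⟨_, rfl⟩
    rw [← hG] at hG1 ⊢
    have hgX : (g : ℝ) ≤ X := by
      have : g ≤ X := by
        calc g ≤ g * N := Nat.le_mul_of_pos_right g hN1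
          _ ≤ g * N + r := Nat.le_add_right _ _
          _ ≤ X := hgN
      exact_mod_cast this
    have hGC : G ≤ C * l := by
      rw [hG, hl]; exact hphi X hXb g hg hgX
    have hNsmall : (N : ℝ) ^ (1 - κ') ≤ 1 / 2 * (N / t) := by
      rw [Real.rpow_one] at c3
      rw [le_div_iff₀ ht0] at c3
      have h1 : (N : ℝ) ^ (1 - κ') * Real.exp (κ' * t) = N := by
        rw [hNt, ← Real.exp_mul, ← Real.exp_add]
        congr 1; ring
      have h2 : (N : ℝ) ^ (1 - κ') * (2 * t) ≤ N := by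
        calc (N : ℝ) ^ (1 - κ') * (2 * t) ≤ (N : ℝ) ^ (1 - κ') * Real.exp (κ' * t) :=
              mul_le_mul_of_nonneg_left c3 (by positivity)
          _ = N := h1
      rw [← mul_div_assoc, le_div_iff₀ ht0]
      linarith
    apply le_min
    · -- first bound
      have h1 : N / t ≤ N / t ^ (1 - ε) := by
        apply div_le_div_of_nonneg_left hNr.le (Real.rpow_pos_of_pos ht0 _)
        calc t ^ (1 - ε) ≤ t ^ (1 : ℝ) := Real.rpow_le_rpow_of_exponent_le c4 (by linarith)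
          _ = t := Real.rpow_one t
      have h2 : 64 * (N / t ^ (1 - η / 4)) ≤ N / t ^ (1 - ε) := by
        have h3 : t ^ (1 - ε) * 64 ≤ t ^ (1 - η / 4) := by
          calc t ^ (1 - ε) * 64 ≤ t ^ (1 - ε) * t ^ (η / 4) :=
                mul_le_mul_of_nonneg_left c1 (Real.rpow_pos_of_pos ht0 _).le
            _ = t ^ (1 - ε + η / 4) := (Real.rpow_add ht0 _ _).symm
            _ ≤ t ^ (1 - η / 4) := Real.rpow_le_rpow_of_exponent_le c4 (by linarith)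
        rw [← mul_div_assoc, div_le_div_iff₀ hL0 (Real.rpow_pos_of_pos ht0 _)]
        calc 64 * (N : ℝ) * t ^ (1 - ε) = N * (t ^ (1 - ε) * 64) := by ring
          _ ≤ N * t ^ (1 - η / 4) := mul_le_mul_of_nonneg_left h3 hNr.le
      have h4 : 0 ≤ N / t ^ (1 - ε) := by positivity
      have h5 : N / t ^ (1 - ε) ≤ G * (N / t ^ (1 - ε)) := le_mul_of_one_le_left h4 hG1
      have h6 : 32 * G * (N / t ^ (1 - η / 4)) ≤ 1 / 2 * (G * (N / t ^ (1 - ε))) := by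
        have h7 : G * (64 * (N / t ^ (1 - η / 4))) ≤ G * (N / t ^ (1 - ε)) :=
          mul_le_mul_of_nonneg_left h2 (by linarith)
        linarith
      linarith
    · -- second bound
      have hκ1 : κ ≤ 1 := by linarith
      have h1 : N / t ≤ N / t ^ κ := by
        apply div_le_div_of_nonneg_left hNr.le (Real.rpow_pos_of_pos ht0 _)
        calc t ^ κ ≤ t ^ (1 : ℝ) := Real.rpow_le_rpow_of_exponent_le c4 hκ1
          _ = t := Real.rpow_one t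
      have h2 : l ≤ t ^ (1 - η / 2) := by
        have h3 : l = (l ^ (1 + ε)) ^ (1 / (1 + ε)) := by
          rw [← Real.rpow_mul (by linarith)]
          have : (1 + ε) * (1 / (1 + ε)) = 1 := by field_simp
          rw [this, Real.rpow_one]
        have h4 : (l ^ (1 + ε)) ^ (1 / (1 + ε)) ≤ t ^ (1 / (1 + ε)) :=
          Real.rpow_le_rpow (by positivity) htl (by positivity)
        have h5 : 1 / (1 + ε) ≤ 1 - η / 2 := by
          rw [div_le_iff₀ (by linarith)]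
          have h6 : η * ε ≤ 1 * ε := mul_le_mul_of_nonneg_right hη1 hε.le
          linarith
        calc l = (l ^ (1 + ε)) ^ (1 / (1 + ε)) := h3
          _ ≤ t ^ (1 / (1 + ε)) := h4
          _ ≤ t ^ (1 - η / 2) := Real.rpow_le_rpow_of_exponent_le c4 h5
      have h3 : 32 * G * (N / t ^ (1 - η / 4)) ≤ 1 / 2 * (N / t ^ κ) := by
        have h4 : 64 * G * t ^ κ ≤ t ^ (1 - η / 4) := by
          calc 64 * G * t ^ κ ≤ 64 * (C * t ^ (1 - η / 2)) * t ^ (η / 8) := by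
                have h5 : G ≤ C * t ^ (1 - η / 2) := hGC.trans (mul_le_mul_of_nonneg_left h2 hC.le)
                have h6 : t ^ κ ≤ t ^ (η / 8) := Real.rpow_le_rpow_of_exponent_le c4 hκη
                apply mul_le_mul (by linarith) h6 (by positivity) (by positivity)
            _ = (64 * C) * (t ^ (1 - η / 2) * t ^ (η / 8)) := by ring
            _ ≤ t ^ (η / 8) * (t ^ (1 - η / 2) * t ^ (η / 8)) :=
                mul_le_mul_of_nonneg_right c2 (by positivity)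
            _ = t ^ (η / 8 + (1 - η / 2 + η / 8)) := by
                rw [Real.rpow_add ht0, Real.rpow_add ht0]
            _ = t ^ (1 - η / 4) := by congr 1; ring
        rw [← mul_div_assoc, ← mul_div_assoc, div_le_div_iff₀ hL0 (Real.rpow_pos_of_pos ht0 _)]
        calc 32 * G * (N : ℝ) * t ^ κ = (1 / 2 * N) * (64 * G * t ^ κ) := by ring
          _ ≤ (1 / 2 * N) * t ^ (1 - η / 4) := mul_le_mul_of_nonneg_left h4 (by positivity)
      linarith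
  · -- the conditional count
    refine le_trans ?_ (hmain.trans hNκ)
    have hsub : {x : ℕ | 1 ≤ x ∧ x ≤ N ∧ ∃ b ∈ B, Nat.Coprime b (g * x + r) ∧
        ∃ a m n k : ℕ, 1 ≤ a ∧ 2 ≤ m ∧ 1 ≤ n ∧ 1 ≤ k ∧
        ((Real.log n ≤ (Real.log X) ^ A ∧ Real.log k ≤ (Real.log X) ^ A) ∨
          ∃ p : ℕ, p.Prime ∧ Real.log p ≤ t ^ (1 - ε) ∧ p ∣ m * b * (g * x + r)) ∧
        (a ^ m + b ^ n = (g * x + r) ^ k ∨ b ^ n + (g * x + r) ^ k = a ^ m ∨
          (g * x + r) ^ k + a ^ m = b ^ n)} ⊆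
        {x : ℕ | 1 ≤ x ∧ x ≤ N ∧ ∃ b ∈ B, Nat.Coprime b (g * x + r) ∧
        ∃ a m n k : ℕ, 1 ≤ a ∧ 2 ≤ m ∧ 1 ≤ n ∧ 1 ≤ k ∧
        ((Real.log n ≤ (Real.log X) ^ A ∧ Real.log k ≤ (Real.log X) ^ A) ∨
          ∃ p : ℕ, p.Prime ∧ Real.log p ≤ t ^ (1 - η / 4) ∧ p ∣ m * b * (g * x + r)) ∧
        (a ^ m + b ^ n = (g * x + r) ^ k ∨ b ^ n + (g * x + r) ^ k = a ^ m ∨
          (g * x + r) ^ k + a ^ m = b ^ n)} := by
      rintro x ⟨hx1, hxN, b, hb, hco, a, m, n, k, ha, hm, hn, hk, hor, heq⟩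
      refine ⟨hx1, hxN, b, hb, hco, a, m, n, k, ha, hm, hn, hk, ?_, heq⟩
      rcases hor with h | ⟨p, hp, hp1, hp2⟩
      · left; exact h
      · right; exact ⟨p, hp, hp1.trans hlt1, hp2⟩
    have h2 := Set.ncard_le_ncard hsub (hfin _ (fun x hx => ⟨hx.1, hx.2.1⟩))
    exact_mod_cast h2

end Pool.Agent.Work.MP_2738db_nt_A_helper43.NC
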