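import Pool.Agent.Work.MP_2738db_nt_A_helper43.NCH
import Pool.Agent.Work.MP_2738db_nt_X_helper40.FinalFlag

set_option autoImplicit false

namespace Pool.Agent.Work.MP_2738db_nt_A_helper43.NC

theorem final_NC : Stmt_NC := stmt_NC MP_2738db_nt_X.helper40.final_FB

theorem final_H : Stmt_H := stmt_H final_NC

end Pool.Agent.Work.MP_2738db_nt_A_helper43.NC
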