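import Pool.Agent.Work.MP_2738db_nt_A_helper43.NC

/-!
For 100 percent of the integers `c` every Fermat-Catalan solution which contains `c` has both other
bases larger than a fixed power of `c` (or equal to `1`).
-/

set_option autoImplicit false
set_option maxHeartbeats 1000000

namespace Pool.Agent.Work.MP_2738db_nt_A_helper43.NC

open Filter Finset

/-- `c` is in a solution with a small base `b` -/
def Bad (κ : ℝ) (c : ℕ) : Prop :=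
  ∃ b : ℕ, 2 ≤ b ∧ (b : ℝ) ≤ (c : ℝ) ^ κ ∧ Nat.Coprime b c ∧ ∃ a m n k : ℕ, 1 ≤ a ∧
    2 ≤ m ∧ 1 ≤ n ∧ 1 ≤ k ∧ (a ^ m + b ^ n = c ^ k ∨ b ^ n + c ^ k = a ^ m ∨ c ^ k + a ^ m = b ^ n)

def Stmt_H : Prop :=
  ∀ ε : ℝ, 0 < ε → ∃ κ : ℝ, 0 < κ ∧ ∃ N₀ : ℕ, ∀ N : ℕ, N₀ ≤ N →
    ({c : ℕ | 1 ≤ c ∧ c ≤ N ∧ ∃ b : ℕ, 2 ≤ b ∧ (b : ℝ) ≤ (c : ℝ) ^ κ ∧ Nat.Coprime b c ∧
      ∃ a m n k : ℕ, 1 ≤ a ∧ 2 ≤ m ∧ 1 ≤ n ∧ 1 ≤ k ∧
        (a ^ m + b ^ n = c ^ k ∨ b ^ n + c ^ k = a ^ m ∨ c ^ k + a ^ m = b ^ n)}.ncard : ℝ)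
      ≤ N / Real.log N ^ (1 - ε)

/-- one dyadic block -/
theorem block (h : Stmt_NC) {δ : ℝ} (hδ : 0 < δ) : ∃ κ : ℝ, 0 < κ ∧ ∃ j₁ : ℕ, 1 ≤ j₁ ∧ ∀ j : ℕ,
    j₁ ≤ j → ∀ F : Finset ℕ, (∀ c ∈ F, 2 ^ j < c ∧ c ≤ 2 ^ (j + 1) ∧ Bad κ c) →
    (F.card : ℝ) ≤ (2 : ℝ) ^ j / Real.log ((2 : ℝ) ^ j) ^ (1 - δ) := by
  classical
  obtain ⟨κ₀, hκ₀, hA⟩ := h δ hδ
  obtain ⟨X₀, hX₀⟩ := hA 0
  refine ⟨min κ₀ 1 / 2, by positivity, ?_⟩
  obtain ⟨κ, hκ⟩ : ∃ κ, κ = min κ₀ 1 / 2 := ⟨_, rfl⟩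
  rw [← hκ]
  have hκ0 : 0 < κ := by rw [hκ]; positivity
  have hκ1 : κ ≤ 1 / 2 := by
    rw [hκ]; have := min_le_right κ₀ 1; linarith
  have hκ2 : κ ≤ κ₀ / 2 := by
    rw [hκ]; have := min_le_left κ₀ 1; linarith
  -- size conditions
  have e0 : Tendsto (fun j : ℕ => ((j : ℝ) + 1) * Real.log 2) atTop atTop := by
    apply Tendsto.atTop_mul_const (Real.log_pos (by norm_num))
    exact tendsto_atTop_add_const_right _ _ tendsto_natCast_atTop_atTop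
  have e1 : ∀ᶠ y : ℝ in atTop, Real.log y ^ (1 + δ) ≤ y / 2 := by
    have h1 := (isLittleO_log_rpow_rpow_atTop (1 + δ) (zero_lt_one)).def
      (show (0 : ℝ) < 1 / 2 by norm_num)
    filter_upwards [h1, eventually_ge_atTop (1 : ℝ)] with y hy hy1
    rw [Real.rpow_one, Real.norm_of_nonneg (Real.rpow_nonneg (Real.log_nonneg hy1) _),
      Real.norm_of_nonneg (by linarith)] at hy
    linarith
  have e2 := e0.eventually e1
  have e3 : ∀ᶠ j : ℕ in atTop, X₀ ≤ (2 : ℝ) ^ (j + 1) := by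
    have h1 : Tendsto (fun j : ℕ => (2 : ℝ) ^ (j + 1)) atTop atTop :=
      (tendsto_pow_atTop_atTop_of_one_lt (by norm_num)).comp (tendsto_add_atTop_nat 1)
    exact h1.eventually_ge_atTop X₀
  obtain ⟨j₁, hj₁⟩ := ((e2.and e3).and (eventually_ge_atTop 1)).exists_forall_of_atTop
  refine ⟨max j₁ 1, le_max_right _ _, ?_⟩
  intro j hj F hF
  obtain ⟨⟨f1, f2⟩, f3⟩ := hj₁ j (le_trans (le_max_left _ _) hj)
  obtain ⟨M, hM⟩ : ∃ M, M = 2 ^ j := ⟨_, rfl⟩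
  have hMr : (M : ℝ) = (2 : ℝ) ^ j := by rw [hM]; push_cast; rfl
  have hM2 : 2 ≤ M := by
    rw [hM]
    calc 2 = 2 ^ 1 := rfl
      _ ≤ 2 ^ j := Nat.pow_le_pow_right (by norm_num) f3
  have hM2r : (2 : ℝ) ≤ M := by exact_mod_cast hM2
  have hM0 : (0 : ℝ) < M := by linarith
  have h2M : (2 : ℝ) ^ (j + 1) = ((2 * M : ℕ) : ℝ) := by rw [hM]; push_cast; ring
  have hlogM : Real.log ((2 * M : ℕ) : ℝ) = ((j : ℝ) + 1) * Real.log 2 := by
    rw [← h2M, Real.log_pow]; push_cast; ring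
  have hl2 : 0 < Real.log 2 := Real.log_pos (by norm_num)
  set B : Finset ℕ := Finset.Icc 2 ⌊((2 * M : ℕ) : ℝ) ^ κ⌋₊ with hB
  have hfl : ((⌊((2 * M : ℕ) : ℝ) ^ κ⌋₊ : ℕ) : ℝ) ≤ ((2 * M : ℕ) : ℝ) ^ κ :=
    Nat.floor_le (by positivity)
  have hBc : (B.card : ℝ) ≤ (M : ℝ) ^ κ₀ := by
    have h1 : (B.card : ℝ) ≤ ((⌊((2 * M : ℕ) : ℝ) ^ κ⌋₊ : ℕ) : ℝ) := by
      rw [hB, Nat.card_Icc]
      exact_mod_cast (by omega : ⌊((2 * M : ℕ) : ℝ) ^ κ⌋₊ + 1 - 2 ≤ ⌊((2 * M : ℕ) : ℝ) ^ κ⌋₊)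
    calc (B.card : ℝ) ≤ ((2 * M : ℕ) : ℝ) ^ κ := h1.trans hfl
      _ ≤ ((M : ℝ) ^ (2 : ℝ)) ^ κ := by
          apply Real.rpow_le_rpow (by positivity) _ hκ0.le
          push_cast
          rw [show (2 : ℝ) = ((2 : ℕ) : ℝ) by norm_num, Real.rpow_natCast]
          push_cast
          nlinarith
      _ = (M : ℝ) ^ (2 * κ) := by rw [← Real.rpow_mul hM0.le]
      _ ≤ (M : ℝ) ^ κ₀ := Real.rpow_le_rpow_of_exponent_le (by linarith) (by linarith)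
  have hBm : ∀ b ∈ B, 2 ≤ b ∧ b ≤ 2 * M := by
    intro b hb
    rw [hB, Finset.mem_Icc] at hb
    refine ⟨hb.1, ?_⟩
    have h1 : (b : ℝ) ≤ ((2 * M : ℕ) : ℝ) ^ κ := le_trans (by exact_mod_cast hb.2) hfl
    have h2 : ((2 * M : ℕ) : ℝ) ^ κ ≤ ((2 * M : ℕ) : ℝ) ^ (1 : ℝ) := by
      apply Real.rpow_le_rpow_of_exponent_le _ (by linarith)
      push_cast; linarith
    rw [Real.rpow_one] at h2
    exact_mod_cast h1.trans h2
  have hNlow : Real.exp (Real.log (Real.log ((2 * M : ℕ) : ℝ)) ^ (1 + δ)) ≤ M := by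
    rw [hlogM]
    have h1 : ((j : ℝ) + 1) * Real.log 2 / 2 ≤ Real.log M := by
      rw [hMr, Real.log_pow]
      have h2 : (1 : ℝ) ≤ j := by exact_mod_cast f3
      nlinarith
    calc Real.exp (Real.log (((j : ℝ) + 1) * Real.log 2) ^ (1 + δ))
        ≤ Real.exp (Real.log M) := Real.exp_le_exp.2 (f1.trans h1)
      _ = M := Real.exp_log hM0
  have hmain := (hX₀ (2 * M) M 1 M B (by rw [← h2M]; exact f2) hNlow hBc hBm le_rfl
    (by omega)).1.trans (min_le_left _ _)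
  rw [hMr] at hmain
  have hone : ((1 : ℕ) : ℝ) / ((Nat.totient 1 : ℕ) : ℝ) = 1 := by simp
  rw [hone, one_mul] at hmain
  refine le_trans ?_ hmain
  rw [← Set.ncard_coe_finset F]
  have hfin : {x : ℕ | 1 ≤ x ∧ x ≤ M ∧ ∃ b ∈ B, Nat.Coprime b (1 * x + M) ∧ ∃ a m n k : ℕ, 1 ≤ a ∧
        2 ≤ m ∧ 1 ≤ n ∧ 1 ≤ k ∧
        (a ^ m + b ^ n = (1 * x + M) ^ k ∨ b ^ n + (1 * x + M) ^ k = a ^ m ∨
          (1 * x + M) ^ k + a ^ m = b ^ n)}.Finite := by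
    apply (Set.finite_Icc 1 M).subset
    intro x hx
    exact ⟨hx.1, hx.2.1⟩
  have hle : (F : Set ℕ).ncard ≤ ((fun x => x + M) '' {x : ℕ | 1 ≤ x ∧ x ≤ M ∧ ∃ b ∈ B,
        Nat.Coprime b (1 * x + M) ∧ ∃ a m n k : ℕ, 1 ≤ a ∧
        2 ≤ m ∧ 1 ≤ n ∧ 1 ≤ k ∧
        (a ^ m + b ^ n = (1 * x + M) ^ k ∨ b ^ n + (1 * x + M) ^ k = a ^ m ∨
          (1 * x + M) ^ k + a ^ m = b ^ n)}).ncard := by
    apply Set.ncard_le_ncard _ (hfin.image _)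
    intro c hc
    obtain ⟨hc1, hc2, b, hb2, hbc, hco, a, m, n, k, ha, hm, hn, hk, heq⟩ := hF c hc
    rw [← hM] at hc1
    have hc3 : c ≤ 2 * M := by rw [hM]; rw [pow_succ] at hc2; omega
    have hcx : 1 * (c - M) + M = c := by omega
    refine ⟨c - M, ⟨by omega, by omega, b, ?_, ?_, a, m, n, k, ha, hm, hn, hk, ?_⟩, ?_⟩
    · rw [hB, Finset.mem_Icc]
      refine ⟨hb2, Nat.le_floor ?_⟩
      refine hbc.trans (Real.rpow_le_rpow (by positivity) ?_ hκ0.le)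
      exact_mod_cast hc3
    · rw [hcx]; exact hco
    · rw [hcx]; exact heq
    · change c - M + M = c
      omega
  have hle2 := hle.trans (Set.ncard_image_le hfin)
  exact_mod_cast hle2

theorem stmt_H (h : Stmt_NC) : Stmt_H := by
  classical
  intro ε hε
  obtain ⟨δ, hδ⟩ : ∃ δ, δ = min ε 1 / 2 := ⟨_, rfl⟩
  have hδ0 : 0 < δ := by rw [hδ]; positivity
  have hδ1 : δ ≤ 1 / 2 := by
    rw [hδ]; have := min_le_right ε 1; linarith
  have hδε : δ < ε := by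
    rw [hδ]; have := min_le_left ε 1; linarith
  obtain ⟨κ, hκ, j₁, hj1, hblock⟩ := block h hδ0
  refine ⟨κ, hκ, ?_⟩
  -- size conditions
  have e1 : ∀ᶠ t : ℝ in atTop, 32 ≤ t ^ (ε - δ) :=
    (tendsto_rpow_atTop (by linarith)).eventually_ge_atTop 32
  have e2 : ∀ᶠ t : ℝ in atTop, 2 ≤ Real.exp (1 / 2 * t) / t ^ (1 : ℝ) :=
    (tendsto_exp_mul_div_rpow_atTop 1 (1 / 2) (by norm_num)).eventually_ge_atTop 2
  obtain ⟨t₀, ht₀⟩ := ((e1.and e2).and (eventually_ge_atTop (1 : ℝ))).exists_forall_of_atTop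
  refine ⟨max (2 ^ (2 * j₁ + 10)) ⌈Real.exp t₀⌉₊, ?_⟩
  intro N hN
  have hNa : 2 ^ (2 * j₁ + 10) ≤ N := le_trans (le_max_left _ _) hN
  have hNb : Real.exp t₀ ≤ N := by
    refine le_trans (Nat.le_ceil _) ?_
    exact_mod_cast le_trans (le_max_right _ _) hN
  have hN0 : (0 : ℝ) < N := lt_of_lt_of_le (Real.exp_pos _) hNb
  have hNn : N ≠ 0 := by
    intro h0; rw [h0] at hN0; simp at hN0
  obtain ⟨t, ht⟩ : ∃ t, t = Real.log N := ⟨_, rfl⟩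
  have hNt : (N : ℝ) = Real.exp t := by rw [ht, Real.exp_log hN0]
  have htt : t₀ ≤ t := by
    rw [ht, Real.le_log_iff_exp_le hN0]; exact hNb
  obtain ⟨⟨c1, c2⟩, c3⟩ := ht₀ t htt
  have ht0 : 0 < t := by linarith
  rw [← ht]
  obtain ⟨J, hJ⟩ : ∃ J, J = Nat.log 2 N := ⟨_, rfl⟩
  have hJ1 : 2 ^ J ≤ N := by rw [hJ]; exact Nat.pow_log_le_self 2 hNn
  have hJ2 : N < 2 ^ (J + 1) := by rw [hJ]; exact Nat.lt_pow_succ_log_self (by norm_num) N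
  have hJ3 : 2 * j₁ + 10 ≤ J := by
    rw [hJ]; exact Nat.le_log_of_pow_le (by norm_num) hNa
  obtain ⟨j₀, hj₀⟩ : ∃ j₀, j₀ = J / 2 := ⟨_, rfl⟩
  have hj01 : j₁ ≤ j₀ := by omega
  have hj02 : 2 * j₀ ≤ J := by omega
  have hj03 : J + 1 ≤ 4 * j₀ := by omega
  obtain ⟨F, hF⟩ : ∃ F : Finset ℕ, F = (Finset.Icc 1 N).filter (fun c => Bad κ c) := ⟨_, rfl⟩
  have hset : {c : ℕ | 1 ≤ c ∧ c ≤ N ∧ ∃ b : ℕ, 2 ≤ b ∧ (b : ℝ) ≤ (c : ℝ) ^ κ ∧ Nat.Coprime b c ∧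
      ∃ a m n k : ℕ, 1 ≤ a ∧ 2 ≤ m ∧ 1 ≤ n ∧ 1 ≤ k ∧
        (a ^ m + b ^ n = c ^ k ∨ b ^ n + c ^ k = a ^ m ∨ c ^ k + a ^ m = b ^ n)} = (F : Set ℕ) := by
    ext c
    rw [hF, Finset.mem_coe, Finset.mem_filter, Finset.mem_Icc, and_assoc]
    rfl
  rw [hset, Set.ncard_coe_finset]
  have hsub : F ⊆ Finset.Icc 1 (2 ^ j₀) ∪ (Finset.Ico j₀ (J + 1)).biUnion
      (fun j => (Finset.Ioc (2 ^ j) (2 ^ (j + 1))).filter (fun c => Bad κ c)) := by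
    intro c hc
    rw [hF, Finset.mem_filter, Finset.mem_Icc] at hc
    rw [Finset.mem_union, Finset.mem_Icc]
    by_cases hcj : c ≤ 2 ^ j₀
    · left; exact ⟨hc.1.1, hcj⟩
    · right
      push Not at hcj
      rw [Finset.mem_biUnion]
      have hj0 : 1 ≤ 2 ^ j₀ := Nat.one_le_pow _ _ (by norm_num)
      have hc1 : c - 1 ≠ 0 := by omega
      refine ⟨Nat.log 2 (c - 1), ?_, ?_⟩
      · rw [Finset.mem_Ico]
        constructor
        · apply Nat.le_log_of_pow_le (by norm_num)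
          omega
        · have : Nat.log 2 (c - 1) ≤ Nat.log 2 N := Nat.log_mono_right (by omega)
          omega
      · rw [Finset.mem_filter, Finset.mem_Ioc]
        refine ⟨⟨?_, ?_⟩, hc.2⟩
        · have := Nat.pow_log_le_self 2 hc1
          omega
        · have := Nat.lt_pow_succ_log_self (b := 2) (by norm_num) (c - 1)
          omega
  have hcard : (F.card : ℝ) ≤ (2 : ℝ) ^ j₀ +
      ∑ j ∈ Finset.Ico j₀ (J + 1), (2 : ℝ) ^ j / Real.log ((2 : ℝ) ^ j) ^ (1 - δ) := by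
    have h1 := Finset.card_le_card hsub
    have h2 := Finset.card_union_le (Finset.Icc 1 (2 ^ j₀)) ((Finset.Ico j₀ (J + 1)).biUnion
      (fun j => (Finset.Ioc (2 ^ j) (2 ^ (j + 1))).filter (fun c => Bad κ c)))
    have h3 := Finset.card_biUnion_le (s := Finset.Ico j₀ (J + 1))
      (t := fun j => (Finset.Ioc (2 ^ j) (2 ^ (j + 1))).filter (fun c => Bad κ c))
    rw [Nat.card_Icc] at h2
    have h4 : (F.card : ℝ) ≤ (2 : ℝ) ^ j₀ + ∑ j ∈ Finset.Ico j₀ (J + 1),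
        (((Finset.Ioc (2 ^ j) (2 ^ (j + 1))).filter (fun c => Bad κ c)).card : ℝ) := by
      have h5 : F.card ≤ 2 ^ j₀ + ∑ j ∈ Finset.Ico j₀ (J + 1),
        ((Finset.Ioc (2 ^ j) (2 ^ (j + 1))).filter (fun c => Bad κ c)).card := by
        rw [Nat.add_sub_cancel] at h2
        exact h1.trans (h2.trans (Nat.add_le_add_left h3 _))
      exact_mod_cast h5
    refine h4.trans ?_
    apply add_le_add le_rfl
    apply Finset.sum_le_sum
    intro j hj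
    rw [Finset.mem_Ico] at hj
    apply hblock j (by omega)
    intro c hc
    rw [Finset.mem_filter, Finset.mem_Ioc] at hc
    exact ⟨hc.1.1, hc.1.2, hc.2⟩
  refine hcard.trans ?_
  have hl2 : 0 < Real.log 2 := Real.log_pos (by norm_num)
  have htJ : t ≤ ((J : ℝ) + 1) * Real.log 2 := by
    have h1 : (N : ℝ) ≤ (2 : ℝ) ^ (J + 1) := by exact_mod_cast hJ2.le
    have h2 := Real.log_le_log hN0 h1
    rw [Real.log_pow, ← ht] at h2
    push_cast at h2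
    exact h2
  have hterm : ∀ j ∈ Finset.Ico j₀ (J + 1), (2 : ℝ) ^ j / Real.log ((2 : ℝ) ^ j) ^ (1 - δ)
      ≤ (2 : ℝ) ^ j * (4 / t ^ (1 - δ)) := by
    intro j hj
    rw [Finset.mem_Ico] at hj
    have h1 : t / 4 ≤ Real.log ((2 : ℝ) ^ j) := by
      rw [Real.log_pow]
      have h2 : (J : ℝ) + 1 ≤ 4 * j := by
        have : J + 1 ≤ 4 * j := by omega
        exact_mod_cast this
      nlinarith
    have h3 : t ^ (1 - δ) / 4 ≤ Real.log ((2 : ℝ) ^ j) ^ (1 - δ) := by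
      have h4 : (t / 4) ^ (1 - δ) ≤ Real.log ((2 : ℝ) ^ j) ^ (1 - δ) :=
        Real.rpow_le_rpow (by positivity) h1 (by linarith)
      have h5 : t ^ (1 - δ) / 4 ≤ (t / 4) ^ (1 - δ) := by
        rw [Real.div_rpow ht0.le (by norm_num)]
        apply div_le_div_of_nonneg_left (by positivity) (by positivity)
        calc (4 : ℝ) ^ (1 - δ) ≤ (4 : ℝ) ^ (1 : ℝ) :=
              Real.rpow_le_rpow_of_exponent_le (by norm_num) (by linarith)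
          _ = 4 := Real.rpow_one 4
      exact h5.trans h4
    rw [div_eq_mul_inv]
    apply mul_le_mul_of_nonneg_left _ (by positivity)
    have h6 : 0 < t ^ (1 - δ) := Real.rpow_pos_of_pos ht0 _
    rw [inv_eq_one_div, div_le_div_iff₀ (by linarith) h6]
    linarith
  have hsum : ∑ j ∈ Finset.Ico j₀ (J + 1), (2 : ℝ) ^ j / Real.log ((2 : ℝ) ^ j) ^ (1 - δ)
      ≤ 8 * (N / t ^ (1 - δ)) := by
    calc ∑ j ∈ Finset.Ico j₀ (J + 1), (2 : ℝ) ^ j / Real.log ((2 : ℝ) ^ j) ^ (1 - δ)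
        ≤ ∑ j ∈ Finset.Ico j₀ (J + 1), (2 : ℝ) ^ j * (4 / t ^ (1 - δ)) := Finset.sum_le_sum hterm
      _ ≤ ∑ j ∈ Finset.range (J + 1), (2 : ℝ) ^ j * (4 / t ^ (1 - δ)) := by
          apply Finset.sum_le_sum_of_subset_of_nonneg
          · intro j hj
            rw [Finset.mem_Ico] at hj
            rw [Finset.mem_range]; omega
          · intro j _ _
            have h6 : 0 < t ^ (1 - δ) := Real.rpow_pos_of_pos ht0 _
            positivity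
      _ = (∑ j ∈ Finset.range (J + 1), (2 : ℝ) ^ j) * (4 / t ^ (1 - δ)) := by
          rw [Finset.sum_mul]
      _ ≤ (2 * N) * (4 / t ^ (1 - δ)) := by
          apply mul_le_mul_of_nonneg_right
          · have h7 := geom_sum_eq (show (2 : ℝ) ≠ 1 by norm_num) (J + 1)
            rw [h7]
            have h8 : ((2 : ℝ)) ^ J ≤ N := by exact_mod_cast hJ1
            rw [pow_succ]
            linarith
          · have h6 : 0 < t ^ (1 - δ) := Real.rpow_pos_of_pos ht0 _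
            positivity
      _ = _ := by ring
  have hsmall : (2 : ℝ) ^ j₀ ≤ 1 / 2 * (N / t) := by
    have h1 : ((2 : ℝ) ^ j₀) ^ 2 ≤ N := by
      rw [← pow_mul]
      calc (2 : ℝ) ^ (j₀ * 2) ≤ (2 : ℝ) ^ J := pow_le_pow_right₀ (by norm_num) (by omega)
        _ ≤ N := by exact_mod_cast hJ1
    have h2 : (2 : ℝ) ^ j₀ ≤ Real.exp (1 / 2 * t) := by
      apply le_of_sq_le_sq _ (Real.exp_pos _).le
      refine h1.trans (le_of_eq ?_)
      rw [hNt, ← Real.exp_nat_mul]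
      congr 1; push_cast; ring
    rw [Real.rpow_one, le_div_iff₀ ht0] at c2
    rw [← mul_div_assoc, le_div_iff₀ ht0]
    have h3 : (N : ℝ) = Real.exp (1 / 2 * t) * Real.exp (1 / 2 * t) := by
      rw [hNt, ← Real.exp_add]; congr 1; ring
    have h4 : (2 : ℝ) ^ j₀ * t ≤ Real.exp (1 / 2 * t) * t :=
      mul_le_mul_of_nonneg_right h2 ht0.le
    have h5 : Real.exp (1 / 2 * t) * (2 * t) ≤ Real.exp (1 / 2 * t) * Real.exp (1 / 2 * t) :=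
      mul_le_mul_of_nonneg_left c2 (Real.exp_pos _).le
    rw [h3]
    linarith
  have hp1 : 0 < t ^ (1 - δ) := Real.rpow_pos_of_pos ht0 _
  have hp2 : 0 < t ^ (1 - ε) := Real.rpow_pos_of_pos ht0 _
  have h1 : N / t ≤ N / t ^ (1 - ε) := by
    apply div_le_div_of_nonneg_left hN0.le hp2
    calc t ^ (1 - ε) ≤ t ^ (1 : ℝ) := Real.rpow_le_rpow_of_exponent_le c3 (by linarith)
      _ = t := Real.rpow_one t
  have h2 : 32 * (N / t ^ (1 - δ)) ≤ N / t ^ (1 - ε) := by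
    have h3 : t ^ (1 - ε) * 32 ≤ t ^ (1 - δ) := by
      calc t ^ (1 - ε) * 32 ≤ t ^ (1 - ε) * t ^ (ε - δ) := mul_le_mul_of_nonneg_left c1 hp2.le
        _ = t ^ (1 - δ) := by rw [← Real.rpow_add ht0]; congr 1; ring
    rw [← mul_div_assoc, div_le_div_iff₀ hp1 hp2]
    calc 32 * (N : ℝ) * t ^ (1 - ε) = N * (t ^ (1 - ε) * 32) := by ring
      _ ≤ N * t ^ (1 - δ) := mul_le_mul_of_nonneg_left h3 hN0.le
  have h4 : 0 ≤ N / t ^ (1 - ε) := by positivity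
  linarith

end Pool.Agent.Work.MP_2738db_nt_A_helper43.NC
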