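import Pool.Agent.Work.MP_2738db_nt_A_helper43.NCS
import Pool.Agent.Work.MP_b0c12c_nt_helper41.Mert

/-!
The terms of a progression without small prime factor; the bound `g / φ(g) = O(log log g)`.
-/

set_option autoImplicit false

namespace Pool.Agent.Work.MP_2738db_nt_A_helper43.NC

open Finset

/-- the terms `g x + r`, `1 ≤ x ≤ N`, without prime factor `p`, `log p ≤ L` -/
def Ro (g r N : ℕ) (L : ℝ) : Set ℕ :=
  {x : ℕ | 1 ≤ x ∧ x ≤ N ∧ ∀ p : ℕ, p.Prime → Real.log p ≤ L → ¬ p ∣ g * x + r}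

theorem rough_ap (g r N : ℕ) (hg : 1 ≤ g) (hN : 1 ≤ N) (L : ℝ) (hL : 0 < L)
    (hL2 : 2 * L ≤ Real.log N) :
    ((Ro g r N L).ncard : ℝ) ≤ 32 * ((g : ℝ) / g.totient) * (N / L) := by
  classical
  have hN0 : (0 : ℝ) < N := by exact_mod_cast hN
  have hφ : (0 : ℝ) < g.totient := by exact_mod_cast Nat.totient_pos.mpr hg
  have hg0 : (0 : ℝ) < g := by exact_mod_cast hg
  set R := ⌊Real.exp L⌋₊ with hR
  have hR1 : 1 ≤ R := by
    rw [hR]; apply Nat.le_floor
    push_cast
    exact Real.one_le_exp hL.le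
  have hRle : (R : ℝ) ≤ Real.exp L := Nat.floor_le (Real.exp_pos _).le
  have hRlt : Real.exp L < R + 1 := Nat.lt_floor_add_one _
  have hR2 : R ^ 2 ≤ N := by
    have h1 : (R : ℝ) ^ 2 ≤ N := by
      calc (R : ℝ) ^ 2 ≤ Real.exp L ^ 2 := pow_le_pow_left₀ (by positivity) hRle 2
        _ = Real.exp (2 * L) := by rw [← Real.exp_nat_mul]; norm_num
        _ ≤ Real.exp (Real.log N) := Real.exp_le_exp.2 hL2
        _ = N := Real.exp_log hN0
    exact_mod_cast h1
  have hlog : L ≤ Real.log (R + 1) := by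
    rw [Real.le_log_iff_exp_le (by positivity)]
    exact hRlt.le
  have hs := sieve_bound_g (l := g) hg r N R hR1
  rw [max_eq_left hR2] at hs
  set F := (range (N + 1)).filter (fun m => ∀ q, 0 < q → q ≤ R → Nat.Coprime q g →
      Nat.Coprime q (g * m + r)) with hF
  have hsub : Ro g r N L ⊆ (F : Set ℕ) := by
    intro x hx
    obtain ⟨hx1, hxN, hxp⟩ := hx
    rw [hF, mem_coe, mem_filter, mem_range]
    refine ⟨by omega, fun q hq0 hqR _ => ?_⟩
    apply Nat.coprime_of_dvd
    intro p hp hpq hpx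
    refine hxp p hp ?_ hpx
    have h1 : p ≤ R := (Nat.le_of_dvd hq0 hpq).trans hqR
    have h2 : (p : ℝ) ≤ Real.exp L := le_trans (by exact_mod_cast h1) hRle
    rw [Real.log_le_iff_le_exp (by exact_mod_cast hp.pos)]
    exact h2
  have hcard : ((Ro g r N L).ncard : ℝ) ≤ (F.card : ℝ) := by
    rw [← Set.ncard_coe_finset F]
    exact_mod_cast Set.ncard_le_ncard hsub (Finset.finite_toSet F)
  refine hcard.trans ?_
  have h1 : (F.card : ℝ) * (((g.totient : ℝ) / g) * (L / 2)) ≤ 16 * N := by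
    refine le_trans ?_ hs
    apply mul_le_mul_of_nonneg_left _ (by positivity)
    apply mul_le_mul_of_nonneg_left _ (by positivity)
    linarith
  have h2 : (F.card : ℝ) * (((g.totient : ℝ) / g) * (L / 2)) *
      (32 * ((g : ℝ) / g.totient) * (1 / L)) = 16 * F.card := by
    field_simp
    ring
  have h3 : (F.card : ℝ) * (((g.totient : ℝ) / g) * (L / 2)) *
      (32 * ((g : ℝ) / g.totient) * (1 / L)) ≤ 16 * N * (32 * ((g : ℝ) / g.totient) * (1 / L)) :=
    mul_le_mul_of_nonneg_right h1 (by positivity)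
  rw [h2] at h3
  have h4 : 16 * N * (32 * ((g : ℝ) / g.totient) * (1 / L))
      = 16 * (32 * ((g : ℝ) / g.totient) * (N / L)) := by ring
  rw [h4] at h3
  linarith

/-- `g / φ(g) = O(log log X)` for `g ≤ X` -/
theorem phi_le : ∃ C : ℝ, 0 < C ∧ ∀ X : ℝ, Real.exp (Real.exp 1) ≤ X → ∀ g : ℕ, 1 ≤ g →
    (g : ℝ) ≤ X → (g : ℝ) / g.totient ≤ C * Real.log (Real.log X) := by
  classical
  obtain ⟨C, hC, hM⟩ := Pool.Agent.Work.MP_b0c12c_nt_helper41.mertens2
  refine ⟨2 * Real.exp (5 / 2 - Real.log (Real.log 2) + C / Real.log 2), by positivity, ?_⟩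
  intro X hX g hg hgX
  have he1 : (2 : ℝ) ≤ Real.exp 1 := by
    have := Real.add_one_le_exp (1 : ℝ); linarith
  have hX0 : 0 < X := lt_of_lt_of_le (Real.exp_pos _) hX
  have hlX : Real.exp 1 ≤ Real.log X := by
    rw [Real.le_log_iff_exp_le hX0]; exact hX
  have hllX : 1 ≤ Real.log (Real.log X) := by
    rw [Real.le_log_iff_exp_le (by linarith)]; exact hlX
  have hg0 : (0 : ℝ) < g := by exact_mod_cast hg
  have hφ : (0 : ℝ) < g.totient := by exact_mod_cast Nat.totient_pos.mpr hg
  set z := ⌈Real.log X⌉₊ with hz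
  have hz1 : Real.log X ≤ z := Nat.le_ceil _
  have hz2 : (z : ℝ) < Real.log X + 1 := Nat.ceil_lt_add_one (by linarith)
  have hz3 : 2 ≤ z := by
    have : (2 : ℝ) ≤ z := by linarith
    exact_mod_cast this
  have hz0 : (0 : ℝ) < z := by linarith
  -- the product
  have h1 : ((g.totient : ℝ)) = g * ∏ p ∈ g.primeFactors, (1 - (p : ℝ)⁻¹) := by
    have h := Nat.totient_eq_mul_prod_factors g
    have h2 : ((g.totient : ℚ) : ℝ) = ((g * ∏ p ∈ g.primeFactors, (1 - (p : ℚ)⁻¹) : ℚ) : ℝ) := by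
      rw [h]
    push_cast at h2
    exact h2
  have hpos : ∀ p ∈ g.primeFactors, 0 < 1 - (p : ℝ)⁻¹ := by
    intro p hp
    have hp1 : (1 : ℝ) < p := by exact_mod_cast (Nat.prime_of_mem_primeFactors hp).one_lt
    have := inv_lt_one_of_one_lt₀ hp1
    linarith
  have h2 : (g : ℝ) / g.totient = ∏ p ∈ g.primeFactors, (1 - (p : ℝ)⁻¹)⁻¹ := by
    rw [h1, Finset.prod_inv_distrib]
    have h3 : ∏ p ∈ g.primeFactors, (1 - (p : ℝ)⁻¹) ≠ 0 := (Finset.prod_pos hpos).ne'
    field_simp
  have h3 : (g : ℝ) / g.totient ≤ Real.exp (∑ p ∈ g.primeFactors, 1 / ((p : ℝ) - 1)) := by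
    rw [h2, Real.exp_sum]
    apply Finset.prod_le_prod
    · intro p hp
      exact (inv_pos.2 (hpos p hp)).le
    · intro p hp
      have hp1 : (1 : ℝ) < p := by exact_mod_cast (Nat.prime_of_mem_primeFactors hp).one_lt
      have h4 : (1 - (p : ℝ)⁻¹)⁻¹ = 1 / ((p : ℝ) - 1) + 1 := by
        have h5 : (p : ℝ) - 1 ≠ 0 := by linarith
        have h6 : (p : ℝ) ≠ 0 := by linarith
        have h7 : 1 - (p : ℝ)⁻¹ ≠ 0 := (hpos p hp).ne'
        field_simp
        ring
      rw [h4]
      exact Real.add_one_le_exp _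
  -- split
  have h4 : ∑ p ∈ g.primeFactors, 1 / ((p : ℝ) - 1)
      ≤ ∑ p ∈ (Ioc 1 z).filter Nat.Prime, 1 / ((p : ℝ) - 1)
        + ∑ p ∈ g.primeFactors.filter (fun p => z < p), 1 / ((p : ℝ) - 1) := by
    have hsub : g.primeFactors ⊆ (Ioc 1 z).filter Nat.Prime ∪ g.primeFactors.filter (fun p => z < p) := by
      intro p hp
      rw [mem_union, mem_filter, mem_filter, mem_Ioc]
      have hpp := Nat.prime_of_mem_primeFactors hp
      by_cases hpz : p ≤ z
      · left; exact ⟨⟨hpp.one_lt, hpz⟩, hpp⟩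
      · right; exact ⟨hp, by omega⟩
    have hnn : ∀ p : ℕ, p.Prime → 0 ≤ 1 / ((p : ℝ) - 1) := by
      intro p hp
      have hp1 : (1 : ℝ) < p := by exact_mod_cast hp.one_lt
      have : 0 < (p : ℝ) - 1 := by linarith
      positivity
    calc ∑ p ∈ g.primeFactors, 1 / ((p : ℝ) - 1)
        ≤ ∑ p ∈ (Ioc 1 z).filter Nat.Prime ∪ g.primeFactors.filter (fun p => z < p),
            1 / ((p : ℝ) - 1) := by
          apply Finset.sum_le_sum_of_subset_of_nonneg hsub
          intro p hp _
          rw [mem_union, mem_filter, mem_filter] at hp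
          rcases hp with h | h
          · exact hnn p h.2
          · exact hnn p (Nat.prime_of_mem_primeFactors h.1)
      _ ≤ _ := by
          have h5 := Finset.sum_union_inter (s₁ := (Ioc 1 z).filter Nat.Prime)
            (s₂ := g.primeFactors.filter (fun p => z < p)) (f := fun p : ℕ => 1 / ((p : ℝ) - 1))
          have h6 : 0 ≤ ∑ p ∈ (Ioc 1 z).filter Nat.Prime ∩ g.primeFactors.filter (fun p => z < p),
              1 / ((p : ℝ) - 1) := by
            apply Finset.sum_nonneg
            intro p hp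
            rw [mem_inter, mem_filter] at hp
            exact hnn p hp.1.2
          linarith
  -- large primes
  have h5 : ∑ p ∈ g.primeFactors.filter (fun p => z < p), 1 / ((p : ℝ) - 1) ≤ 1 := by
    set P := g.primeFactors.filter (fun p => z < p) with hP
    have h6 : (3 : ℕ) ^ P.card ≤ g := by
      calc (3 : ℕ) ^ P.card ≤ ∏ p ∈ P, p := by
            apply Finset.pow_card_le_prod
            intro p hp
            rw [hP, mem_filter] at hp
            omega
        _ ≤ ∏ p ∈ g.primeFactors, p := by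
            apply Finset.prod_le_prod_of_subset_of_one_le' (Finset.filter_subset _ _)
            intro p hp _
            exact (Nat.prime_of_mem_primeFactors hp).one_lt.le
        _ ≤ g := Nat.le_of_dvd hg (Nat.prod_primeFactors_dvd g)
    have h7 : (P.card : ℝ) ≤ Real.log X := by
      have h8 : ((3 : ℝ)) ^ P.card ≤ X := le_trans (by exact_mod_cast h6) hgX
      have h9 := Real.log_le_log (by positivity) h8
      rw [Real.log_pow] at h9
      have h10 : (1 : ℝ) ≤ Real.log 3 := by
        rw [Real.le_log_iff_exp_le (by norm_num)]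
        have := Real.exp_one_lt_d9
        linarith
      have h11 : (0 : ℝ) ≤ P.card := by positivity
      nlinarith
    calc ∑ p ∈ P, 1 / ((p : ℝ) - 1) ≤ ∑ p ∈ P, 1 / (z : ℝ) := by
          apply Finset.sum_le_sum
          intro p hp
          rw [hP, mem_filter] at hp
          apply one_div_le_one_div_of_le hz0
          have : (z : ℝ) + 1 ≤ p := by exact_mod_cast hp.2
          linarith
      _ = P.card / z := by rw [Finset.sum_const, nsmul_eq_mul]; ring
      _ ≤ 1 := by
          rw [div_le_one hz0]; linarith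
  -- small primes
  have h6 : ∑ p ∈ (Ioc 1 z).filter Nat.Prime, 1 / ((p : ℝ) - 1)
      ≤ ∑ p ∈ (Ioc 1 z).filter Nat.Prime, 1 / (p : ℝ) + 1 := by
    have h7 : ∀ n : ℕ, 1 ≤ n → ∑ p ∈ Ioc 1 n, (1 / ((p : ℝ) - 1) - 1 / (p : ℝ)) ≤ 1 - 1 / n := by
      intro n hn
      induction n, hn using Nat.le_induction with
      | base => simp
      | succ n hn ih =>
        rw [← Finset.insert_Ioc_right_eq_Ioc_add_one (by omega), Finset.sum_insert (by simp)]
        push_cast
        have : ((n : ℝ) + 1 - 1) = n := by ring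
        rw [this]
        linarith
    have h8 : ∑ p ∈ (Ioc 1 z).filter Nat.Prime, (1 / ((p : ℝ) - 1) - 1 / (p : ℝ))
        ≤ ∑ p ∈ Ioc 1 z, (1 / ((p : ℝ) - 1) - 1 / (p : ℝ)) := by
      apply Finset.sum_le_sum_of_subset_of_nonneg (Finset.filter_subset _ _)
      intro p hp _
      rw [mem_Ioc] at hp
      have hp1 : (1 : ℝ) < p := by exact_mod_cast hp.1
      have : 1 / (p : ℝ) ≤ 1 / ((p : ℝ) - 1) :=
        one_div_le_one_div_of_le (by linarith) (by linarith)
      linarith
    have h9 := h7 z (by omega)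
    have h10 : 0 ≤ 1 / (z : ℝ) := by positivity
    rw [Finset.sum_sub_distrib] at h8
    linarith
  have h7 : ∑ p ∈ (Ioc 1 z).filter Nat.Prime, 1 / (p : ℝ) ≤
      1 / 2 + (Real.log (Real.log z) - Real.log (Real.log 2) + C / Real.log 2) := by
    have h8 := (abs_le.1 (hM 2 z le_rfl hz3)).2
    push_cast at h8
    have h9 : (Ioc 1 z).filter Nat.Prime = insert 2 ((Ioc 2 z).filter Nat.Prime) := by
      ext p
      rw [mem_insert, mem_filter, mem_filter, mem_Ioc, mem_Ioc]
      constructor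
      · rintro ⟨⟨h1, h2⟩, h3⟩
        by_cases h4 : p = 2
        · left; exact h4
        · right; exact ⟨⟨by omega, h2⟩, h3⟩
      · rintro (h | ⟨⟨h1, h2⟩, h3⟩)
        · rw [h]; exact ⟨⟨by norm_num, hz3⟩, Nat.prime_two⟩
        · exact ⟨⟨by omega, h2⟩, h3⟩
    rw [h9, Finset.sum_insert (by simp)]
    push_cast
    linarith
  have hlz : 0 < Real.log z := Real.log_pos (by exact_mod_cast hz3)
  have h8 : ∑ p ∈ g.primeFactors, 1 / ((p : ℝ) - 1)
      ≤ Real.log (Real.log z) + (5 / 2 - Real.log (Real.log 2) + C / Real.log 2) := by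
    linarith
  have h9 : (g : ℝ) / g.totient ≤ Real.log z *
      Real.exp (5 / 2 - Real.log (Real.log 2) + C / Real.log 2) := by
    refine h3.trans ?_
    calc Real.exp (∑ p ∈ g.primeFactors, 1 / ((p : ℝ) - 1))
        ≤ Real.exp (Real.log (Real.log z) + (5 / 2 - Real.log (Real.log 2) + C / Real.log 2)) :=
          Real.exp_le_exp.2 h8
      _ = _ := by rw [Real.exp_add, Real.exp_log hlz]
  have h10 : Real.log z ≤ 2 * Real.log (Real.log X) := by
    have h11 : (z : ℝ) ≤ Real.log X ^ 2 := by nlinarith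
    calc Real.log z ≤ Real.log (Real.log X ^ 2) := Real.log_le_log hz0 h11
      _ = 2 * Real.log (Real.log X) := by rw [Real.log_pow]; norm_num
  calc (g : ℝ) / g.totient ≤ Real.log z *
      Real.exp (5 / 2 - Real.log (Real.log 2) + C / Real.log 2) := h9
    _ ≤ (2 * Real.log (Real.log X)) * Real.exp (5 / 2 - Real.log (Real.log 2) + C / Real.log 2) :=
        mul_le_mul_of_nonneg_right h10 (Real.exp_pos _).le
    _ = _ := by ring

end Pool.Agent.Work.MP_2738db_nt_A_helper43.NC
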