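import Pool.Agent.Work.MP_0b7501_nt.BT

/-!
An upper bound sieve for the terms of an arithmetic progression without small prime factor,
uniform in the modulus (large sieve form).
-/

set_option autoImplicit false

namespace Pool.Agent.Work.MP_2738db_nt_A_helper43.NC

open Finset ArithmeticFunction MP_0b7501_nt
open scoped ArithmeticFunction.Moebius ArithmeticFunction.zeta

lemma exists_residue_g {l d : ℕ} (hd : 0 < d) (hco : Nat.Coprime d l) (r0 : ℕ) :
    ∃ r, r < d ∧ ∀ m, d ∣ l * m + r0 ↔ m % d = r := by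
  have : NeZero d := ⟨hd.ne'⟩
  have hu : IsUnit ((l : ℕ) : ZMod d) := (ZMod.isUnit_iff_coprime l d).mpr hco.symm
  obtain ⟨u, hu⟩ := hu
  set r : ZMod d := -(↑u⁻¹ : ZMod d) * r0 with hr
  refine ⟨r.val, ZMod.val_lt r, fun m => ?_⟩
  have h1 : d ∣ l * m + r0 ↔ ((l * m + r0 : ℕ) : ZMod d) = 0 :=
    (ZMod.natCast_eq_zero_iff _ _).symm
  rw [h1]
  push_cast
  rw [← hu]
  constructor
  · intro h2
    have h3 : (m : ZMod d) = r := by
      have h5 : (m : ZMod d) = (↑u⁻¹ : ZMod d) * ((u : ZMod d) * m) := by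
        rw [← mul_assoc, Units.inv_mul, one_mul]
      rw [h5, hr]
      linear_combination (↑u⁻¹ : ZMod d) * h2
    rw [← h3, ZMod.val_natCast]
  · intro h2
    have h3 : (m : ZMod d) = r := by
      have h4 : ((m % d : ℕ) : ZMod d) = r := by rw [h2]; simp
      rwa [ZMod.natCast_mod] at h4
    rw [h3, hr]
    have h5 : (u : ZMod d) * (↑u⁻¹ : ZMod d) = 1 := Units.mul_inv u
    linear_combination (-(r0 : ZMod d)) * h5

/-- the sum of `1 / q` over the squarefree divisors of `l` is at most `l / φ(l)` -/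
lemma sum_sqfree_divisors {l : ℕ} (hl : 0 < l) :
    ((l.totient : ℝ) / l) * ∑ q ∈ l.divisors.filter Squarefree, (1 : ℝ) / q ≤ 1 := by
  classical
  have h1 : ((l.totient : ℝ)) = l * ∏ p ∈ l.primeFactors, (1 - (p : ℝ)⁻¹) := by
    have h := Nat.totient_eq_mul_prod_factors l
    have h2 : ((l.totient : ℚ) : ℝ) = ((l * ∏ p ∈ l.primeFactors, (1 - (p : ℚ)⁻¹) : ℚ) : ℝ) := by
      rw [h]
    push_cast at h2
    exact h2
  have hl0 : (l : ℝ) ≠ 0 := by exact_mod_cast hl.ne'
  have h2 : ∑ q ∈ l.divisors.filter Squarefree, (1 : ℝ) / q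
      ≤ ∏ p ∈ l.primeFactors, (1 + (p : ℝ)⁻¹) := by
    rw [Finset.prod_one_add]
    have h3 : ∑ q ∈ l.divisors.filter Squarefree, (1 : ℝ) / q
        = ∑ t ∈ (l.divisors.filter Squarefree).image Nat.primeFactors,
            ∏ p ∈ t, ((p : ℝ))⁻¹ := by
      rw [Finset.sum_image]
      · apply Finset.sum_congr rfl
        intro q hq
        rw [mem_filter] at hq
        have h4 := Nat.prod_primeFactors_of_squarefree hq.2
        rw [Finset.prod_inv_distrib, one_div]
        congr 1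
        conv_lhs => rw [← h4]
        push_cast
        rfl
      · intro a ha b hb hab
        rw [mem_coe, mem_filter] at ha hb
        rw [← Nat.prod_primeFactors_of_squarefree ha.2, ← Nat.prod_primeFactors_of_squarefree hb.2,
          hab]
    rw [h3]
    apply Finset.sum_le_sum_of_subset_of_nonneg
    · intro t ht
      rw [mem_image] at ht
      obtain ⟨q, hq, rfl⟩ := ht
      rw [mem_filter, Nat.mem_divisors] at hq
      rw [mem_powerset]
      exact Nat.primeFactors_mono hq.1.1 hl.ne'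
    · intro t _ _
      apply Finset.prod_nonneg
      intro p _
      positivity
  have h5 : ((l.totient : ℝ) / l) = ∏ p ∈ l.primeFactors, (1 - (p : ℝ)⁻¹) := by
    rw [h1]; field_simp
  have hnn : ∀ p ∈ l.primeFactors, 0 ≤ 1 - (p : ℝ)⁻¹ := by
    intro p hp
    have hp1 : (1 : ℝ) ≤ p := by exact_mod_cast (Nat.prime_of_mem_primeFactors hp).one_lt.le
    have := inv_le_one_of_one_le₀ hp1
    linarith
  rw [h5]
  calc (∏ p ∈ l.primeFactors, (1 - (p : ℝ)⁻¹)) * ∑ q ∈ l.divisors.filter Squarefree, (1 : ℝ) / q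
      ≤ (∏ p ∈ l.primeFactors, (1 - (p : ℝ)⁻¹)) * ∏ p ∈ l.primeFactors, (1 + (p : ℝ)⁻¹) :=
        mul_le_mul_of_nonneg_left h2 (Finset.prod_nonneg hnn)
    _ = ∏ p ∈ l.primeFactors, ((1 - (p : ℝ)⁻¹) * (1 + (p : ℝ)⁻¹)) := by
        rw [Finset.prod_mul_distrib]
    _ ≤ 1 := by
        apply Finset.prod_le_one
        · intro p hp
          have := hnn p hp
          positivity
        · intro p hp
          have : (0 : ℝ) ≤ ((p : ℝ)⁻¹) ^ 2 := by positivity
          nlinarith

lemma sqfree_le_coprime_g {l : ℕ} (hl : 0 < l) (R : ℕ) :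
    ((l.totient : ℝ) / l) * ∑ q ∈ (Icc 1 R).filter Squarefree, (1 : ℝ) / q ≤
      ∑ q ∈ (Icc 1 R).filter (fun q => Squarefree q ∧ Nat.Coprime q l), (1 : ℝ) / q := by
  classical
  have hll : (0 : ℝ) ≤ (l.totient : ℝ) / l := by positivity
  set A := (Icc 1 R).filter (fun q => Squarefree q ∧ Nat.Coprime q l) with hA
  set E := l.divisors.filter Squarefree with hE
  have hkey : ∑ q ∈ (Icc 1 R).filter Squarefree, (1 : ℝ) / q ≤
      (∑ d ∈ E, (1 : ℝ) / d) * ∑ q ∈ A, (1 : ℝ) / q := by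
    rw [Finset.sum_mul_sum, ← Finset.sum_product']
    have h3 : ∑ q ∈ (Icc 1 R).filter Squarefree, (1 : ℝ) / q
        = ∑ z ∈ ((Icc 1 R).filter Squarefree).image (fun q => (Nat.gcd q l, q / Nat.gcd q l)),
            (1 : ℝ) / z.1 * (1 / z.2) := by
      rw [Finset.sum_image]
      · apply Finset.sum_congr rfl
        intro q hq
        have h4 : Nat.gcd q l * (q / Nat.gcd q l) = q := Nat.mul_div_cancel' (Nat.gcd_dvd_left q l)
        rw [one_div_mul_one_div]
        congr 1
        exact_mod_cast h4.symm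
      · intro a ha b hb hab
        simp only [Prod.mk.injEq] at hab
        have h4 : Nat.gcd a l * (a / Nat.gcd a l) = a := Nat.mul_div_cancel' (Nat.gcd_dvd_left a l)
        have h5 : Nat.gcd b l * (b / Nat.gcd b l) = b := Nat.mul_div_cancel' (Nat.gcd_dvd_left b l)
        calc a = Nat.gcd a l * (a / Nat.gcd a l) := h4.symm
          _ = Nat.gcd b l * (b / Nat.gcd b l) := by rw [hab.2, hab.1]
          _ = b := h5
    rw [h3]
    apply Finset.sum_le_sum_of_subset_of_nonneg
    · intro z hz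
      rw [mem_image] at hz
      obtain ⟨q, hq, rfl⟩ := hz
      rw [mem_filter, mem_Icc] at hq
      obtain ⟨⟨hq1, hqR⟩, hsq⟩ := hq
      have hg0 : 0 < Nat.gcd q l := Nat.gcd_pos_of_pos_left _ hq1
      have h4 : Nat.gcd q l * (q / Nat.gcd q l) = q := Nat.mul_div_cancel' (Nat.gcd_dvd_left q l)
      rw [mem_product]
      constructor
      · rw [hE, mem_filter, Nat.mem_divisors]
        exact ⟨⟨Nat.gcd_dvd_right q l, hl.ne'⟩, hsq.squarefree_of_dvd (Nat.gcd_dvd_left q l)⟩
      · rw [hA, mem_filter, mem_Icc]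
        refine ⟨⟨Nat.div_pos (Nat.le_of_dvd hq1 (Nat.gcd_dvd_left q l)) hg0,
          (Nat.div_le_self _ _).trans hqR⟩, hsq.squarefree_of_dvd (Nat.div_dvd_of_dvd (Nat.gcd_dvd_left q l)), ?_⟩
        apply Nat.Coprime.symm
        apply Nat.coprime_of_dvd
        intro p hp hpl hpq
        have h6 : p ∣ q := hpq.trans (Nat.div_dvd_of_dvd (Nat.gcd_dvd_left q l))
        have h7 : p ∣ Nat.gcd q l := Nat.dvd_gcd h6 hpl
        have h8 : p * p ∣ q := by
          rw [← h4]; exact Nat.mul_dvd_mul h7 hpq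
        have h9 := hsq p h8
        exact hp.one_lt.ne' (Nat.isUnit_iff.mp h9)
    · intro z _ _
      positivity
  have hA0 : 0 ≤ ∑ q ∈ A, (1 : ℝ) / q := Finset.sum_nonneg fun q _ => by positivity
  have h1 := sum_sqfree_divisors hl
  calc ((l.totient : ℝ) / l) * ∑ q ∈ (Icc 1 R).filter Squarefree, (1 : ℝ) / q
      ≤ ((l.totient : ℝ) / l) * ((∑ d ∈ E, (1 : ℝ) / d) * ∑ q ∈ A, (1 : ℝ) / q) :=
        mul_le_mul_of_nonneg_left hkey hll
    _ = (((l.totient : ℝ) / l) * ∑ d ∈ E, (1 : ℝ) / d) * ∑ q ∈ A, (1 : ℝ) / q := by ring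
    _ ≤ 1 * ∑ q ∈ A, (1 : ℝ) / q := mul_le_mul_of_nonneg_right h1 hA0
    _ = _ := one_mul _

open Classical in
lemma sieve_bound_g {l : ℕ} (hl : 0 < l) (r0 h R : ℕ) (hR : 1 ≤ R) :
    (((range (h + 1)).filter (fun m => ∀ q, 0 < q → q ≤ R → Nat.Coprime q l →
      Nat.Coprime q (l * m + r0))).card : ℝ) *
      (((l.totient : ℝ) / l) * (Real.log (R + 1) / 2)) ≤ 16 * (max h (R ^ 2) : ℕ) := by
  classical
  obtain ⟨D, w, hND, hw0, hw1, hdvd, heq⟩ := exists_weight h (R ^ 2) (Nat.one_le_pow _ _ hR)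
  set W : ℝ := 16 * (max h (R ^ 2) : ℕ) with hW
  set g : ℕ → ℕ := fun m => l * m + r0 with hg
  set Qs := (Icc 1 R).filter (fun q => Squarefree q ∧ Nat.Coprime q l) with hQs
  set G : ℝ := ∑ q ∈ Qs, (μ q : ℝ) ^ 2 / Nat.totient q with hG
  have hGlow : ((l.totient : ℝ) / l) * (Real.log (R + 1) / 2) ≤ G := by
    have h1 : ∑ q ∈ Qs, (1 : ℝ) / q ≤ G := by
      apply Finset.sum_le_sum
      intro q hq
      rw [hQs, mem_filter, mem_Icc] at hq
      have h2 : (μ q : ℝ) ^ 2 = 1 := by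
        have := ArithmeticFunction.moebius_sq_eq_one_of_squarefree hq.2.1
        exact_mod_cast this
      rw [h2]
      have hpos : 0 < Nat.totient q := Nat.totient_pos.mpr hq.1.1
      apply one_div_le_one_div_of_le (by exact_mod_cast hpos)
      exact_mod_cast Nat.totient_le q
    have h2 := harmonic_le_sqfree R
    have h4 := sqfree_le_coprime_g hl R
    have h3 : Real.log (R + 1) ≤ ∑ k ∈ Icc 1 R, (1 : ℝ) / k := by
      have := log_add_one_le_harmonic R
      rw [harmonic_eq_sum_Icc] at this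
      push_cast at this
      simpa [one_div] using this
    have hll : (0 : ℝ) < (l.totient : ℝ) / l := by
      have e1 : 0 < l.totient := Nat.totient_pos.mpr hl
      positivity
    have h5 : ((l.totient : ℝ) / l) * (Real.log (R + 1) / 2)
        ≤ ((l.totient : ℝ) / l) * ∑ q ∈ (Icc 1 R).filter Squarefree, (1 : ℝ) / q :=
      mul_le_mul_of_nonneg_left (by linarith) hll.le
    linarith
  have hll : (0 : ℝ) < (l.totient : ℝ) / l := by
    have e1 : 0 < l.totient := Nat.totient_pos.mpr hl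
    positivity
  have hG0 : 0 < G := lt_of_lt_of_le (by
    have : (1 : ℝ) < R + 1 := by
      have : (1 : ℝ) ≤ R := by exact_mod_cast hR
      linarith
    have := Real.log_pos this
    positivity) hGlow
  have hind : ∀ d, 1 ≤ d → d ≤ R ^ 2 → Nat.Coprime d l →
      ∑ m ∈ range D, w m * (if d ∣ g m then (1 : ℝ) else 0) = W / d := by
    intro d h1 h2 h3
    obtain ⟨r, hr, hriff⟩ := exists_residue_g h1 h3 r0
    rw [← heq d r h1 h2 hr, Finset.sum_filter]
    refine Finset.sum_congr rfl fun m _ => ?_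
    simp only [hg, hriff]
    split_ifs <;> simp
  have hcross : ∀ q ∈ Qs, ∀ q' ∈ Qs, ∑ m ∈ range D, w m * (cq q (g m) * cq q' (g m)) =
      W * (if q = q' then (Nat.totient q : ℝ) else 0) := by
    intro q hq q' hq'
    rw [hQs, mem_filter, mem_Icc] at hq hq'
    rw [← orthogonality q q' hq.1.1 hq'.1.1]
    unfold cq
    simp_rw [Finset.sum_mul_sum, Finset.mul_sum]
    rw [Finset.sum_comm]
    refine Finset.sum_congr rfl fun d hd => ?_
    rw [Finset.sum_comm]
    refine Finset.sum_congr rfl fun d' hd' => ?_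
    have hd0 := Nat.pos_of_mem_divisors hd
    have hd'0 := Nat.pos_of_mem_divisors hd'
    have hdR : d ≤ R := (Nat.divisor_le hd).trans hq.1.2
    have hd'R : d' ≤ R := (Nat.divisor_le hd').trans hq'.1.2
    have hl1 : 1 ≤ Nat.lcm d d' := Nat.lcm_pos hd0 hd'0
    have hl2 : Nat.lcm d d' ≤ R ^ 2 := by
      calc Nat.lcm d d' ≤ d * d' := Nat.lcm_le_mul hd0 hd'0
        _ ≤ R * R := Nat.mul_le_mul hdR hd'R
        _ = R ^ 2 := by ring
    have hl3 : Nat.Coprime (Nat.lcm d d') l := by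
      have e1 : Nat.Coprime d l := Nat.Coprime.coprime_dvd_left (Nat.dvd_of_mem_divisors hd) hq.2.2
      have e2 : Nat.Coprime d' l := Nat.Coprime.coprime_dvd_left (Nat.dvd_of_mem_divisors hd') hq'.2.2
      exact Nat.Coprime.coprime_dvd_left (Nat.lcm_dvd (Dvd.intro _ rfl) (Dvd.intro_left _ rfl))
        (Nat.Coprime.mul_left e1 e2)
    have h1 : ∀ m, w m * ((μ (q / d) : ℝ) * ((d : ℝ) * (if d ∣ g m then 1 else 0)) *
        ((μ (q' / d') : ℝ) * ((d' : ℝ) * (if d' ∣ g m then 1 else 0)))) =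
        ((μ (q / d) : ℝ) * (μ (q' / d') : ℝ) * (d * d')) *
          (w m * (if Nat.lcm d d' ∣ g m then (1 : ℝ) else 0)) := by
      intro m
      have h2 : Nat.lcm d d' ∣ g m ↔ (d ∣ g m ∧ d' ∣ g m) := Nat.lcm_dvd_iff
      by_cases hA : d ∣ g m <;> by_cases hB : d' ∣ g m <;> simp [hA, hB, h2]
      ring
    simp_rw [h1]
    rw [← Finset.mul_sum, hind _ hl1 hl2 hl3]
    have hgl : (Nat.gcd d d' : ℝ) * Nat.lcm d d' = d * d' := by
      exact_mod_cast Nat.gcd_mul_lcm d d'
    have hl0 : (Nat.lcm d d' : ℝ) ≠ 0 := by positivity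
    rw [← hgl]
    field_simp
  let f : ℕ → ℝ := fun m => ∑ q ∈ Qs, (μ q : ℝ) / Nat.totient q * cq q (g m)
  have hf2 : ∑ m ∈ range D, w m * (f m) ^ 2 = W * G := by
    have h1 : ∀ m, w m * (f m) ^ 2 = ∑ q ∈ Qs, ∑ q' ∈ Qs,
        ((μ q : ℝ) / Nat.totient q) * ((μ q' : ℝ) / Nat.totient q') *
          (w m * (cq q (g m) * cq q' (g m))) := by
      intro m
      simp only [f]
      rw [sq, Finset.sum_mul_sum, Finset.mul_sum]
      refine Finset.sum_congr rfl fun q _ => ?_
      rw [Finset.mul_sum]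
      refine Finset.sum_congr rfl fun q' _ => ?_
      ring
    simp_rw [h1]
    rw [Finset.sum_comm, hG, Finset.mul_sum]
    refine Finset.sum_congr rfl fun q hq => ?_
    rw [Finset.sum_comm]
    have h2 : ∀ q' ∈ Qs, ∑ m ∈ range D, ((μ q : ℝ) / Nat.totient q) *
        ((μ q' : ℝ) / Nat.totient q') * (w m * (cq q (g m) * cq q' (g m))) =
        if q = q' then W * ((μ q : ℝ) ^ 2 / Nat.totient q) else 0 := by
      intro q' hq'
      rw [← Finset.mul_sum, hcross q hq q' hq']
      by_cases h : q = q'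
      · subst h
        rw [hQs, mem_filter, mem_Icc] at hq
        have hpos : (0 : ℝ) < Nat.totient q := by exact_mod_cast Nat.totient_pos.mpr hq.1.1
        simp only [if_true]
        field_simp
      · simp [h]
    rw [Finset.sum_congr rfl h2, Finset.sum_ite_eq, if_pos hq]
  set B := (range (h + 1)).filter (fun m => ∀ q, 0 < q → q ≤ R → Nat.Coprime q l →
      Nat.Coprime q (l * m + r0)) with hB
  have hfB : ∀ m ∈ B, f m = G := by
    intro m hm
    rw [hB, mem_filter] at hm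
    simp only [f, hG]
    refine Finset.sum_congr rfl fun q hq => ?_
    rw [hQs, mem_filter, mem_Icc] at hq
    rw [cq_coprime q _ hq.1.1 (hm.2 q hq.1.1 hq.1.2 hq.2.2)]
    ring
  have hmain : (B.card : ℝ) * G ^ 2 ≤ W * G := by
    calc (B.card : ℝ) * G ^ 2 = ∑ _m ∈ B, G ^ 2 := by simp
      _ ≤ ∑ m ∈ B, w m * (f m) ^ 2 := by
        apply Finset.sum_le_sum
        intro m hm
        rw [hfB m hm]
        rw [hB, mem_filter, mem_range] at hm
        have := hw1 m (by omega)
        nlinarith [sq_nonneg G]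
      _ ≤ ∑ m ∈ range D, w m * (f m) ^ 2 := by
        apply Finset.sum_le_sum_of_subset_of_nonneg
        · intro m hm
          rw [hB, mem_filter, mem_range] at hm
          rw [mem_range]; omega
        · intro m _ _
          exact mul_nonneg (hw0 m) (sq_nonneg _)
      _ = W * G := hf2
  have h1 : (B.card : ℝ) * G ≤ W := by
    have : (B.card : ℝ) * G * G ≤ W * G := by nlinarith
    exact le_of_mul_le_mul_right this hG0
  calc (B.card : ℝ) * (((l.totient : ℝ) / l) * (Real.log (R + 1) / 2)) ≤ (B.card : ℝ) * G := by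
        apply mul_le_mul_of_nonneg_left hGlow; positivity
    _ ≤ W := h1


end Pool.Agent.Work.MP_2738db_nt_A_helper43.NC
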